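import Pool.Agent.ANT.Ram

set_option autoImplicit false

namespace Pool.Agent.ANT

/-- many disjoint members or a small blocking set -/
lemma disj_or_block (P : Finset ℕ → Prop) (k : ℕ) (hP : ∀ S, P S → S.card < k) : ∀ r : ℕ,
    (∃ S : ℕ → Finset ℕ, (∀ a < r, P (S a)) ∧
      ∀ a < r, ∀ b < r, a ≠ b → Disjoint (S a) (S b)) ∨
    ∃ B : Finset ℕ, B.card ≤ r * k ∧ ∀ S, P S → ¬ Disjoint S B := by
  classical
  intro r
  induction r with
  | zero => exact Or.inl ⟨fun _ => ∅, fun a ha => absurd ha (Nat.not_lt_zero _),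
      fun a ha => absurd ha (Nat.not_lt_zero _)⟩
  | succ r ih =>
    rcases ih with ⟨S, hS1, hS2⟩ | ⟨B, hB1, hB2⟩
    · by_cases hex : ∃ S', P S' ∧ Disjoint S' ((Finset.range r).biUnion S)
      · obtain ⟨S', hS', hd⟩ := hex
        left
        have hd' : ∀ a < r, Disjoint S' (S a) := fun a ha =>
          Finset.disjoint_of_subset_right
            (Finset.subset_biUnion_of_mem S (Finset.mem_range.mpr ha)) hd
        refine ⟨fun a => if a < r then S a else S', fun a ha => ?_, fun a ha b hb hab => ?_⟩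
        · by_cases har : a < r
          · simp only [har, if_true]; exact hS1 a har
          · simp only [har, if_false]; exact hS'
        · by_cases har : a < r
          · by_cases hbr : b < r
            · simp only [har, hbr, if_true]; exact hS2 a har b hbr hab
            · simp only [har, hbr, if_true, if_false]; exact (hd' a har).symm
          · by_cases hbr : b < r
            · simp only [har, hbr, if_true, if_false]; exact hd' b hbr
            · omega
      · right
        push Not at hex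
        refine ⟨(Finset.range r).biUnion S, ?_, hex⟩
        calc ((Finset.range r).biUnion S).card ≤ ∑ a ∈ Finset.range r, (S a).card :=
              Finset.card_biUnion_le
          _ ≤ ∑ _a ∈ Finset.range r, k :=
              Finset.sum_le_sum (fun a ha => (hP _ (hS1 a (Finset.mem_range.mp ha))).le)
          _ = r * k := by simp
          _ ≤ (r + 1) * k := Nat.mul_le_mul_right _ (Nat.le_succ _)
    · right
      exact ⟨B, hB1.trans (Nat.mul_le_mul_right _ (Nat.le_succ _)), hB2⟩

/-- a digraph with out-degrees at most `D` on a large set has an independent set of size `k` -/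
lemma indep (D k : ℕ) : ∃ R : ℕ, ∀ (W : Finset ℕ) (B : ℕ → Finset ℕ),
    (∀ i ∈ W, (B i).card ≤ D) → R ≤ W.card →
    ∃ V ⊆ W, k ≤ V.card ∧ ∀ i ∈ V, ∀ j ∈ V, i ≠ j → j ∉ B i := by
  classical
  obtain ⟨R2, hR2⟩ := ramsey_ab (D + 2) k
  obtain ⟨R1, hR1⟩ := ramsey_ab (D + 2) R2
  refine ⟨R1, fun W B hB hW => ?_⟩
  rcases hR1 (fun i j => j ∈ B i) W hW with ⟨V, hV1, hV2, hV3⟩ | ⟨V, hV1, hV2, hV3⟩
  · exfalso
    have hne : V.Nonempty := by rw [← Finset.card_pos]; omega
    have hmin := Finset.min'_mem V hne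
    have hsub : V.erase (V.min' hne) ⊆ B (V.min' hne) := by
      intro j hj
      have hjV := Finset.mem_of_mem_erase hj
      exact hV3 _ hmin j hjV (lt_of_le_of_ne (Finset.min'_le V j hjV) (Finset.ne_of_mem_erase hj).symm)
    have h1 := Finset.card_le_card hsub
    rw [Finset.card_erase_of_mem hmin] at h1
    have h2 := hB _ (hV1 hmin)
    omega
  · rcases hR2 (fun i j => i ∈ B j) V hV2 with ⟨U, hU1, hU2, hU3⟩ | ⟨U, hU1, hU2, hU3⟩
    · exfalso
      have hne : U.Nonempty := by rw [← Finset.card_pos]; omega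
      have hmax := Finset.max'_mem U hne
      have hsub : U.erase (U.max' hne) ⊆ B (U.max' hne) := by
        intro j hj
        have hjU := Finset.mem_of_mem_erase hj
        exact hU3 j hjU _ hmax (lt_of_le_of_ne (Finset.le_max' U j hjU) (Finset.ne_of_mem_erase hj))
      have h1 := Finset.card_le_card hsub
      rw [Finset.card_erase_of_mem hmax] at h1
      have h2 := hB _ (hV1 (hU1 hmax))
      omega
    · refine ⟨U, hU1.trans hV1, hU2, fun i hi j hj hij => ?_⟩
      rcases Nat.lt_or_gt_of_ne hij with h | h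
      · exact hV3 i (hU1 hi) j (hU1 hj) h
      · exact hU3 j hj i hi h

/-- block lemma: if every subset of size at least `k` has a point accepted with the rest, then some
point is accepted with `r` pairwise disjoint sets -/
theorem blockLemma (k r : ℕ) : ∃ R : ℕ, ∀ (W : Finset ℕ) (A : ℕ → Finset ℕ → Prop)
    (_h : ∀ V ⊆ W, k ≤ V.card → ∃ i ∈ V, A i (V.erase i)), R ≤ W.card →
    ∃ i ∈ W, ∃ S : ℕ → Finset ℕ, (∀ a < r, S a ⊆ W ∧ i ∉ S a ∧ A i (S a)) ∧
      ∀ a < r, ∀ b < r, a ≠ b → Disjoint (S a) (S b) := by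
  classical
  obtain ⟨R, hR⟩ := indep (r * k) k
  refine ⟨R, fun W A h hW => ?_⟩
  by_contra hcon
  push Not at hcon
  have hB : ∀ i, ∃ B : Finset ℕ, i ∈ W → B.card ≤ r * k ∧
      ∀ S, (S ⊆ W ∧ i ∉ S ∧ A i S ∧ S.card < k) → ¬ Disjoint S B := by
    intro i
    by_cases hi : i ∈ W
    · rcases disj_or_block (fun S => S ⊆ W ∧ i ∉ S ∧ A i S ∧ S.card < k) k
        (fun S hS => hS.2.2.2) r with ⟨S, hS1, hS2⟩ | ⟨B, hB1, hB2⟩
      · exfalso
        obtain ⟨a, ha, b, hb, hab, hnd⟩ := hcon i hi S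
          (fun a ha => ⟨(hS1 a ha).1, (hS1 a ha).2.1, (hS1 a ha).2.2.1⟩)
        exact hnd (hS2 a ha b hb hab)
      · exact ⟨B, fun _ => ⟨hB1, hB2⟩⟩
    · exact ⟨∅, fun h => absurd h hi⟩
  choose B hB using hB
  obtain ⟨V, hV1, hV2, hV3⟩ := hR W B (fun i hi => (hB i hi).1) hW
  obtain ⟨V', hV'1, hV'2⟩ := Finset.exists_subset_card_eq hV2
  obtain ⟨i, hi, hA⟩ := h V' (hV'1.trans hV1) hV'2.ge
  have hiV := hV'1 hi
  have hk : 0 < k := by
    rw [← hV'2]
    exact Finset.card_pos.mpr ⟨i, hi⟩
  have h1 := (hB i (hV1 hiV)).2 (V'.erase i)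
    ⟨(Finset.erase_subset _ _).trans (hV'1.trans hV1), Finset.notMem_erase _ _, hA, by
      rw [Finset.card_erase_of_mem hi, hV'2]; omega⟩
  apply h1
  rw [Finset.disjoint_left]
  intro j hj
  exact hV3 i hiV j (hV'1 (Finset.mem_of_mem_erase hj)) (Finset.ne_of_mem_erase hj).symm

end Pool.Agent.ANT
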