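import Pool.Agent.ANT.Coord

set_option autoImplicit false

namespace Pool.Agent.ANT

open Filter Topology Finset

variable {𝕜 : Type*} [RCLike 𝕜] {X : Type*} [NormedAddCommGroup X] [NormedSpace 𝕜 X]

theorem coord_unique {m : ℕ → ℕ} {e : ℕ → ℕ → X} {c : ℕ → ℕ → X → 𝕜}
    (h : IsL1Decomposition m e c) (a : ℕ → ℕ → 𝕜) (x : X)
    (ha : Tendsto (fun N => ∑ n ∈ range N, ∑ i ∈ range (m n), a n i • e n i) atTop (𝓝 x)) :
    ∀ n, ∀ i < m n, a n i = c n i x := by
  intro n i hi
  refine sub_eq_zero.mp (h.2.1 (fun n i => a n i - c n i x) ?_ n i hi)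
  have h1 := ha.sub (h.1 x).tendsto_sum_nat
  rw [sub_self] at h1
  refine h1.congr ?_
  intro N
  rw [← Finset.sum_sub_distrib]
  refine Finset.sum_congr rfl (fun n _ => ?_)
  rw [← Finset.sum_sub_distrib]
  refine Finset.sum_congr rfl (fun i _ => ?_)
  rw [sub_smul]

theorem coord_e {m : ℕ → ℕ} {e : ℕ → ℕ → X} {c : ℕ → ℕ → X → 𝕜}
    (h : IsL1Decomposition m e c) {k j : ℕ} (hj : j < m k) :
    ∀ n, ∀ i < m n, c n i (e k j) = if n = k ∧ i = j then 1 else 0 := by
  classical
  intro n i hi
  symm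
  refine coord_unique h (fun n i => if n = k ∧ i = j then 1 else 0) (e k j) ?_ n i hi
  refine tendsto_const_nhds.congr' ?_
  filter_upwards [eventually_gt_atTop k] with N hN
  rw [Finset.sum_eq_single k]
  · rw [Finset.sum_eq_single j]
    · simp
    · intro i _ hij
      simp [hij]
    · intro hj'
      exact absurd (Finset.mem_range.mpr hj) hj'
  · intro n _ hnk
    refine Finset.sum_eq_zero (fun i _ => ?_)
    simp [hnk]
  · intro hk
    exact absurd (Finset.mem_range.mpr hN) hk

/-- Uniformly bounded finite sums of matrix units define an operator. -/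
theorem exists_op [CompleteSpace X] {m : ℕ → ℕ} {e : ℕ → ℕ → X} {c : ℕ → ℕ → X → 𝕜}
    (h : IsL1Decomposition m e c) (K : Set ℕ) (s t : ℕ → ℕ) (hs : ∀ n ∈ K, s n < m n)
    (ht : ∀ n ∈ K, t n < m n) (B : ℝ)
    (hb : ∀ E : Finset ℕ, (E : Set ℕ) ⊆ K → ∀ x,
      ‖∑ n ∈ E, c n (s n) x • e n (t n)‖ ≤ B * ‖x‖) :
    ∃ T : X →L[𝕜] X, ∀ n ∈ K, c n (t n) (T (e n (s n))) = 1 := by
  classical
  obtain ⟨M, hMe, C, hCc, hMC⟩ := coord h
  let a : ℕ → X → X := fun n x => if n ∈ K then C n (s n) x • e n (t n) else 0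
  have hsumE : ∀ (E : Finset ℕ) (x : X), ∑ n ∈ E, a n x =
      ∑ n ∈ E.filter (· ∈ K), c n (s n) x • e n (t n) := by
    intro E x
    rw [Finset.sum_filter]
    refine Finset.sum_congr rfl (fun n _ => ?_)
    simp only [a]
    split_ifs with hn
    · rw [hCc n _ (hs n hn)]
    · rfl
  have hbE : ∀ (E : Finset ℕ) (x : X), ‖∑ n ∈ E, a n x‖ ≤ B * ‖x‖ := by
    intro E x
    rw [hsumE]
    refine hb _ ?_ x
    intro n hn
    exact (Finset.mem_filter.mp (Finset.mem_coe.mp hn)).2
  have hB : ∀ x : X, 0 ≤ B * ‖x‖ := fun x => (norm_nonneg _).trans (hbE ∅ x)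
  have hadd : ∀ n x y, a n (x + y) = a n x + a n y := by
    intro n x y
    simp only [a]
    split_ifs
    · rw [map_add, add_smul]
    · simp
  have hsmul : ∀ n (b : 𝕜) x, a n (b • x) = b • a n x := by
    intro n b x
    simp only [a]
    split_ifs
    · rw [map_smul, smul_eq_mul, mul_smul]
    · simp
  have hsub : ∀ n x y, a n (x - y) = a n x - a n y := by
    intro n x y
    simp only [a]
    split_ifs
    · rw [map_sub, sub_smul]
    · simp
  -- the partial sums of `x` are killed by far coordinates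
  have hfar : ∀ (N : ℕ) (x : X), ∀ n ≥ N,
      a n (∑ k ∈ range N, ∑ i ∈ range (m k), c k i x • e k i) = 0 := by
    intro N x n hn
    simp only [a]
    split_ifs with hnK
    · rw [map_sum, Finset.sum_eq_zero, zero_smul]
      intro k hk
      have hk' : k < N := Finset.mem_range.mp hk
      rw [map_sum]
      refine Finset.sum_eq_zero (fun i hi => ?_)
      rw [map_smul, hCc n _ (hs n hnK), coord_e h (Finset.mem_range.mp hi) n _ (hs n hnK)]
      have : n ≠ k := by omega
      simp [this]
    · rfl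
  have hsummable : ∀ x, Summable (fun n => a n x) := by
    intro x
    rw [summable_iff_vanishing_norm]
    intro ε hε
    have h1 : Tendsto (fun N => B * ‖x - ∑ k ∈ range N, ∑ i ∈ range (m k), c k i x • e k i‖)
        atTop (𝓝 0) := by
      have h2 := ((tendsto_const_nhds (x := x)).sub (h.1 x).tendsto_sum_nat).norm
      rw [sub_self, norm_zero] at h2
      simpa using h2.const_mul B
    obtain ⟨N, hN⟩ := ((tendsto_order.mp h1).2 ε hε).exists
    refine ⟨range N, fun E hE => ?_⟩
    have h3 : ∑ n ∈ E, a n x =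
        ∑ n ∈ E, a n (x - ∑ k ∈ range N, ∑ i ∈ range (m k), c k i x • e k i) := by
      refine Finset.sum_congr rfl (fun n hn => ?_)
      have hnN : N ≤ n := by
        by_contra hcon
        exact (Finset.disjoint_left.mp hE hn) (Finset.mem_range.mpr (not_le.mp hcon))
      rw [hsub, hfar N x n hnN, sub_zero]
    rw [h3]
    exact lt_of_le_of_lt (hbE _ _) hN
  let T₀ : X →ₗ[𝕜] X :=
    { toFun := fun x => ∑' n, a n x
      map_add' := by
        intro x y
        rw [← (hsummable x).tsum_add (hsummable y)]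
        exact tsum_congr (fun n => hadd n x y)
      map_smul' := by
        intro b x
        rw [RingHom.id_apply, ← tsum_const_smul'']
        exact tsum_congr (fun n => hsmul n b x) }
  have hT₀ : ∀ x, ‖T₀ x‖ ≤ B * ‖x‖ := by
    intro x
    exact le_of_tendsto (hsummable x).hasSum.norm (Filter.Eventually.of_forall
      (fun E => hbE E x))
  refine ⟨T₀.mkContinuous B hT₀, ?_⟩
  intro n hn
  have h1 : T₀.mkContinuous B hT₀ (e n (s n)) = e n (t n) := by
    show ∑' k, a k (e n (s n)) = e n (t n)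
    rw [tsum_eq_single n]
    · simp only [a]
      rw [if_pos hn, hCc n _ (hs n hn), coord_e h (hs n hn) n _ (hs n hn)]
      simp
    · intro k hk
      simp only [a]
      split_ifs with hkK
      · rw [hCc k _ (hs k hkK), coord_e h (hs n hn) k _ (hs k hkK)]
        simp [hk]
      · rfl
  rw [h1, coord_e h (ht n hn) n _ (ht n hn)]
  simp

end Pool.Agent.ANT
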