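import Pool.Agent.ANT.Defs

set_option autoImplicit false

namespace Pool.Agent.ANT

open Filter Topology BoundedContinuousFunction

section coord

variable {𝕜 : Type*} [RCLike 𝕜] {X : Type*} [NormedAddCommGroup X] [NormedSpace 𝕜 X]

/-- the sum of the `n`-th block -/
def blk (m : ℕ → ℕ) (e : ℕ → ℕ → X) (a : ℕ → ℕ → 𝕜) (n : ℕ) : X :=
  ∑ i ∈ Finset.range (m n), a n i • e n i

/-- convergent sequences of partial sums, as a subspace of the bounded sequences -/
def PS (𝕜 : Type*) [RCLike 𝕜] {X : Type*} [NormedAddCommGroup X] [NormedSpace 𝕜 X]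
    (m : ℕ → ℕ) (e : ℕ → ℕ → X) : Submodule 𝕜 (ℕ →ᵇ X) where
  carrier := {s | s 0 = 0 ∧
    (∀ N, s (N + 1) - s N ∈ Submodule.span 𝕜 (e N '' (Finset.range (m N) : Set ℕ))) ∧
    ∃ x, Tendsto (fun N => s N) atTop (𝓝 x)}
  zero_mem' := ⟨rfl, fun N => by simp, 0, by
    simp only [BoundedContinuousFunction.coe_zero, Pi.zero_apply]; exact tendsto_const_nhds⟩
  add_mem' := by
    rintro s t ⟨h1, h2, x, h3⟩ ⟨h4, h5, y, h6⟩
    refine ⟨by simp [h1, h4], fun N => ?_, x + y, ?_⟩
    · have := Submodule.add_mem _ (h2 N) (h5 N)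
      simp only [BoundedContinuousFunction.coe_add, Pi.add_apply]
      rwa [add_sub_add_comm]
    · simpa using h3.add h6
  smul_mem' := by
    rintro a s ⟨h1, h2, x, h3⟩
    refine ⟨by simp [h1], fun N => ?_, a • x, ?_⟩
    · have := Submodule.smul_mem _ a (h2 N)
      simp only [BoundedContinuousFunction.coe_smul]
      rwa [← smul_sub]
    · simpa using h3.const_smul a

lemma ps_closed [CompleteSpace X] (m : ℕ → ℕ) (e : ℕ → ℕ → X) :
    IsClosed (PS 𝕜 m e : Set (ℕ →ᵇ X)) := by
  have h1 : IsClosed {s : ℕ →ᵇ X | s 0 = 0} :=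
    isClosed_eq (continuous_eval_const _) continuous_const
  have h2 : IsClosed {s : ℕ →ᵇ X |
      ∀ N, s (N + 1) - s N ∈ Submodule.span 𝕜 (e N '' (Finset.range (m N) : Set ℕ))} := by
    rw [Set.ofPred_forall]
    refine isClosed_iInter (fun N => ?_)
    have : FiniteDimensional 𝕜 (Submodule.span 𝕜 (e N '' (Finset.range (m N) : Set ℕ))) :=
      FiniteDimensional.span_of_finite 𝕜 ((Finset.finite_toSet _).image _)
    have hc : IsClosed ((Submodule.span 𝕜 (e N '' (Finset.range (m N) : Set ℕ)) :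
        Submodule 𝕜 X) : Set X) := Submodule.closed_of_finiteDimensional _
    exact hc.preimage
      ((continuous_eval_const _).sub
        (continuous_eval_const _))
  have h3 : IsClosed {s : ℕ →ᵇ X | ∃ x, Tendsto (fun N => s N) atTop (𝓝 x)} := by
    apply isClosed_of_closure_subset
    intro s hs
    rw [Metric.mem_closure_iff] at hs
    refine cauchySeq_tendsto_of_complete ?_
    rw [Metric.cauchySeq_iff']
    intro ε hε
    obtain ⟨t, ⟨x, ht⟩, hst⟩ := hs (ε / 3) (by linarith)
    obtain ⟨N, hN⟩ := Metric.cauchySeq_iff'.mp ht.cauchySeq (ε / 3) (by linarith)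
    refine ⟨N, fun n hn => ?_⟩
    have ha := (BoundedContinuousFunction.dist_coe_le_dist (f := s) (g := t) n).trans_lt hst
    have hb := (BoundedContinuousFunction.dist_coe_le_dist (f := s) (g := t) N).trans_lt hst
    have hc := hN n hn
    calc dist (s n) (s N) ≤ dist (s n) (t n) + dist (t n) (t N) + dist (t N) (s N) :=
          dist_triangle4 _ _ _ _
      _ < ε / 3 + ε / 3 + ε / 3 := by
          rw [dist_comm (t N) (s N)]
          linarith
      _ = ε := by ring
  have : (PS 𝕜 m e : Set (ℕ →ᵇ X)) = {s : ℕ →ᵇ X | s 0 = 0} ∩ ({s : ℕ →ᵇ X |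
      ∀ N, s (N + 1) - s N ∈ Submodule.span 𝕜 (e N '' (Finset.range (m N) : Set ℕ))} ∩
      {s : ℕ →ᵇ X | ∃ x, Tendsto (fun N => s N) atTop (𝓝 x)}) := rfl
  rw [this]
  exact h1.inter (h2.inter h3)

/-- the sum map on convergent sequences of partial sums -/
lemma exists_lim_map [CompleteSpace X] (m : ℕ → ℕ) (e : ℕ → ℕ → X) :
    ∃ L : PS 𝕜 m e →L[𝕜] X, ∀ s : PS 𝕜 m e, Tendsto (fun N => s.1 N) atTop (𝓝 (L s)) := by
  have hex : ∀ s : PS 𝕜 m e, ∃ x, Tendsto (fun N => s.1 N) atTop (𝓝 x) := fun s => s.2.2.2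
  choose L hL using hex
  refine ⟨LinearMap.mkContinuous
    { toFun := L
      map_add' := fun s t => ?_
      map_smul' := fun a s => ?_ } 1 (fun s => ?_), hL⟩
  · refine tendsto_nhds_unique (hL (s + t)) ?_
    simpa using (hL s).add (hL t)
  · refine tendsto_nhds_unique (hL (a • s)) ?_
    simpa using (hL s).const_smul a
  · rw [one_mul]
    refine le_of_tendsto (hL s).norm (Eventually.of_forall (fun N => ?_))
    exact s.1.norm_coe_le_norm N

theorem coord [CompleteSpace X] {m : ℕ → ℕ} {e : ℕ → ℕ → X} {c : ℕ → ℕ → X → 𝕜}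
    (h : IsL1Decomposition m e c) :
    ∃ M : ℝ, (∀ n, ∀ i < m n, ‖e n i‖ ≤ M) ∧
      ∃ C : ℕ → ℕ → X →L[𝕜] 𝕜, (∀ n, ∀ i < m n, ∀ x, C n i x = c n i x) ∧
        ∀ n x, ∑ i ∈ Finset.range (m n), ‖C n i x‖ ≤ M * ‖x‖ := by
  classical
  obtain ⟨hexp, huniq, A, B, hA, hAB⟩ := h
  -- the coordinates are linear
  have hpart : ∀ x, Tendsto (fun N => ∑ n ∈ Finset.range N,
      ∑ i ∈ Finset.range (m n), c n i x • e n i) atTop (𝓝 x) := fun x =>
    (hexp x).tendsto_sum_nat
  have hadd : ∀ n, ∀ i < m n, ∀ x y, c n i (x + y) = c n i x + c n i y := by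
    intro n i hi x y
    have h1 := huniq (fun n i => c n i (x + y) - (c n i x + c n i y)) (by
      have h2 := (hpart (x + y)).sub ((hpart x).add (hpart y))
      rw [sub_self] at h2
      refine h2.congr (fun N => ?_)
      simp only [← Finset.sum_add_distrib, ← Finset.sum_sub_distrib, sub_smul, add_smul]) n i hi
    exact sub_eq_zero.mp h1
  have hsmul : ∀ n, ∀ i < m n, ∀ (a : 𝕜) x, c n i (a • x) = a * c n i x := by
    intro n i hi a x
    have h1 := huniq (fun n i => c n i (a • x) - a * c n i x) (by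
      have h2 := (hpart (a • x)).sub ((hpart x).const_smul a)
      rw [sub_self] at h2
      refine h2.congr (fun N => ?_)
      simp only [Finset.smul_sum, smul_smul, ← Finset.sum_sub_distrib, sub_smul]) n i hi
    exact sub_eq_zero.mp h1
  -- open mapping
  have : CompleteSpace (PS 𝕜 m e) := (ps_closed (𝕜 := 𝕜) m e).completeSpace_coe
  obtain ⟨L, hL⟩ := exists_lim_map (𝕜 := 𝕜) m e
  have hsurj : Function.Surjective L := by
    intro x
    obtain ⟨D, hD⟩ := isBounded_iff_forall_norm_le.mp (Metric.isBounded_range_of_tendsto _ (hpart x))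
    let s : ℕ →ᵇ X := BoundedContinuousFunction.ofNormedAddCommGroupDiscrete
      (fun N => ∑ n ∈ Finset.range N, ∑ i ∈ Finset.range (m n), c n i x • e n i) D
      (fun N => hD _ (Set.mem_range_self N))
    have hs : ∀ N, s N = ∑ n ∈ Finset.range N, ∑ i ∈ Finset.range (m n), c n i x • e n i :=
      fun N => rfl
    have hmem : s ∈ PS 𝕜 m e := by
      refine ⟨by rw [hs]; simp, fun N => ?_, x, ?_⟩
      · rw [hs, hs, Finset.sum_range_succ, add_sub_cancel_left]
        refine Submodule.sum_mem _ (fun i hi => Submodule.smul_mem _ _ (Submodule.subset_span ?_))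
        exact ⟨i, Finset.mem_coe.mpr hi, rfl⟩
      · exact (hpart x).congr (fun N => (hs N).symm)
    refine ⟨⟨s, hmem⟩, tendsto_nhds_unique (hL ⟨s, hmem⟩) ?_⟩
    exact (hpart x).congr (fun N => (hs N).symm)
  obtain ⟨K, hK, hKx⟩ := L.exists_preimage_norm_le hsurj
  -- bound for the blocks
  have hblk : ∀ n x, ‖∑ i ∈ Finset.range (m n), c n i x • e n i‖ ≤ 2 * K * ‖x‖ := by
    intro n x
    obtain ⟨s, hsx, hsn⟩ := hKx x
    -- coefficients of `s`
    have hco : ∀ N, ∃ a : ℕ → 𝕜, s.1 (N + 1) - s.1 N = ∑ i ∈ Finset.range (m N), a i • e N i := by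
      intro N
      have h1 := s.2.2.1 N
      rw [Submodule.mem_span_image_finset_iff_exists_fun] at h1
      obtain ⟨a, ha⟩ := h1
      refine ⟨fun i => if hi : i ∈ Finset.range (m N) then a ⟨i, hi⟩ else 0, ?_⟩
      rw [← ha, ← Finset.sum_coe_sort (Finset.range (m N)) (fun i : ℕ =>
        (if hi : i ∈ Finset.range (m N) then a ⟨i, hi⟩ else 0 : 𝕜) • e N i)]
      refine Finset.sum_congr rfl (fun i _ => ?_)
      rw [dif_pos i.2]
    choose a ha using hco
    have hps : ∀ N, s.1 N = ∑ n ∈ Finset.range N, ∑ i ∈ Finset.range (m n), a n i • e n i := by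
      intro N
      induction N with
      | zero => rw [s.2.1]; simp
      | succ N ih => rw [Finset.sum_range_succ, ← ih, ← ha, add_sub_cancel]
    have heq : ∀ n, ∀ i < m n, a n i = c n i x := by
      intro n i hi
      have h1 := huniq (fun n i => a n i - c n i x) (by
        have h2 := (hL s).sub (hpart x)
        rw [hsx, sub_self] at h2
        refine h2.congr (fun N => ?_)
        rw [hps]
        simp only [← Finset.sum_sub_distrib, sub_smul]) n i hi
      exact sub_eq_zero.mp h1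
    have h3 : ∑ i ∈ Finset.range (m n), c n i x • e n i = s.1 (n + 1) - s.1 n := by
      rw [ha]
      exact Finset.sum_congr rfl (fun i hi => by rw [heq n i (Finset.mem_range.mp hi)])
    rw [h3]
    have hs' : ‖s.1‖ ≤ K * ‖x‖ := hsn
    calc ‖s.1 (n + 1) - s.1 n‖ ≤ ‖s.1 (n + 1)‖ + ‖s.1 n‖ := norm_sub_le _ _
      _ ≤ ‖s.1‖ + ‖s.1‖ := add_le_add (s.1.norm_coe_le_norm _) (s.1.norm_coe_le_norm _)
      _ ≤ 2 * K * ‖x‖ := by linarith
  have hsumc : ∀ n x, ∑ i ∈ Finset.range (m n), ‖c n i x‖ ≤ 2 * K / A * ‖x‖ := by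
    intro n x
    have h1 := (hAB n (fun i => c n i x)).1
    rw [div_mul_eq_mul_div, le_div_iff₀ hA, mul_comm]
    exact h1.trans (hblk n x)
  have hC : ∀ n i, ∃ f : X →L[𝕜] 𝕜, i < m n → ∀ x, f x = c n i x := by
    intro n i
    by_cases hi : i < m n
    · refine ⟨LinearMap.mkContinuous
        { toFun := fun x => c n i x
          map_add' := hadd n i hi
          map_smul' := fun a x => by simpa using hsmul n i hi a x } (2 * K / A) (fun x => ?_),
        fun _ x => rfl⟩
      exact (Finset.single_le_sum (f := fun i => ‖c n i x‖) (fun i _ => norm_nonneg _)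
        (Finset.mem_range.mpr hi)).trans (hsumc n x)
    · exact ⟨0, fun h => absurd h hi⟩
  choose C hC using hC
  refine ⟨max B (2 * K / A), ?_, C, fun n i hi x => hC n i hi x, ?_⟩
  · intro n i hi
    have h1 := (hAB n (fun j => if j = i then 1 else 0)).2
    simp only [ite_smul, one_smul, zero_smul] at h1
    rw [Finset.sum_ite_eq' (Finset.range (m n)) i (fun j => e n j),
      if_pos (Finset.mem_range.mpr hi)] at h1
    have h2 : ∑ j ∈ Finset.range (m n), ‖(if j = i then 1 else 0 : 𝕜)‖ = 1 := by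
      rw [Finset.sum_eq_single i]
      · simp
      · intro j _ hj
        simp [hj]
      · intro hni
        exact absurd (Finset.mem_range.mpr hi) hni
    rw [h2, mul_one] at h1
    exact h1.trans (le_max_left _ _)
  · intro n x
    calc ∑ i ∈ Finset.range (m n), ‖C n i x‖ = ∑ i ∈ Finset.range (m n), ‖c n i x‖ :=
          Finset.sum_congr rfl (fun i hi => by rw [hC n i (Finset.mem_range.mp hi)])
      _ ≤ 2 * K / A * ‖x‖ := hsumc n x
      _ ≤ max B (2 * K / A) * ‖x‖ :=
          mul_le_mul_of_nonneg_right (le_max_right _ _) (norm_nonneg _)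

end coord

end Pool.Agent.ANT
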