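import Pool.Agent.ANT.Defs

set_option autoImplicit false

namespace Pool.Agent.ANT

open Filter Topology

/-- Compactness of the unit ball of `B(X)` in the weak operator topology, `X` reflexive, in the
form needed: lower bounds for matrix entries. -/
theorem cptF {𝕜 : Type*} [RCLike 𝕜] {X : Type*} [NormedAddCommGroup X] [NormedSpace 𝕜 X]
    (hX : IsReflexive 𝕜 X) {ι κ : Type*} (A : Set ι) (x : ι → X) (S : ι → Finset κ)
    (f : ι → κ → X →L[𝕜] 𝕜) (ε : ℝ)
    (h : ∀ F : Finset ι, (F : Set ι) ⊆ A → ∃ T : X →L[𝕜] X, ‖T‖ ≤ 1 ∧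
      ∀ a ∈ F, ε ≤ ∑ j ∈ S a, ‖f a j (T (x a))‖) :
    ∃ T : X →L[𝕜] X, ‖T‖ ≤ 1 ∧ ∀ a ∈ A, ε ≤ ∑ j ∈ S a, ‖f a j (T (x a))‖ := by
  classical
  have h' : ∀ F : Finset ι, ∃ T : X →L[𝕜] X, ‖T‖ ≤ 1 ∧
      ∀ a ∈ F, a ∈ A → ε ≤ ∑ j ∈ S a, ‖f a j (T (x a))‖ := by
    intro F
    obtain ⟨T, hT, hTa⟩ := h (F.filter (· ∈ A)) (by
      intro a ha
      simpa using (Finset.mem_filter.mp ha).2)
    exact ⟨T, hT, fun a ha haA => hTa a (Finset.mem_filter.mpr ⟨ha, haA⟩)⟩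
  choose T hT hTa using h'
  let U : Ultrafilter (Finset ι) := Ultrafilter.of atTop
  have hU : (U : Filter (Finset ι)) ≤ atTop := Ultrafilter.of_le _
  -- limits of bounded scalar nets
  have hlim : ∀ (y : X) (g : X →L[𝕜] 𝕜), ∃ l : 𝕜, Tendsto (fun F => g (T F y)) U (𝓝 l) := by
    intro y g
    have hb : ∀ F, g (T F y) ∈ Metric.closedBall (0 : 𝕜) (‖g‖ * ‖y‖) := by
      intro F
      rw [mem_closedBall_zero_iff]
      calc ‖g (T F y)‖ ≤ ‖g‖ * ‖T F y‖ := g.le_opNorm _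
        _ ≤ ‖g‖ * (‖T F‖ * ‖y‖) := by gcongr; exact (T F).le_opNorm _
        _ ≤ ‖g‖ * (1 * ‖y‖) := by gcongr; exact hT F
        _ = ‖g‖ * ‖y‖ := by ring
    obtain ⟨l, -, hl⟩ := (isCompact_closedBall (0 : 𝕜) (‖g‖ * ‖y‖)).ultrafilter_le_nhds
      (U.map (fun F => g (T F y))) (by
        rw [le_principal_iff, Ultrafilter.coe_map, mem_map]
        exact Filter.univ_mem' hb)
    exact ⟨l, hl⟩
  choose l hl using hlim
  have hlb : ∀ y g, ‖l y g‖ ≤ ‖g‖ * ‖y‖ := by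
    intro y g
    refine le_of_tendsto (hl y g).norm (Filter.Eventually.of_forall ?_)
    intro F
    calc ‖g (T F y)‖ ≤ ‖g‖ * ‖T F y‖ := g.le_opNorm _
      _ ≤ ‖g‖ * (‖T F‖ * ‖y‖) := by gcongr; exact (T F).le_opNorm _
      _ ≤ ‖g‖ * (1 * ‖y‖) := by gcongr; exact hT F
      _ = ‖g‖ * ‖y‖ := by ring
  -- the functional on the dual
  have hP : ∀ y, ∃ z : X, ∀ g : X →L[𝕜] 𝕜, l y g = g z := by
    intro y
    let P₀ : (X →L[𝕜] 𝕜) →ₗ[𝕜] 𝕜 :=
      { toFun := l y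
        map_add' := by
          intro g g'
          refine tendsto_nhds_unique (hl y (g + g')) ?_
          simpa using (hl y g).add (hl y g')
        map_smul' := by
          intro a g
          refine tendsto_nhds_unique (hl y (a • g)) ?_
          simpa using (hl y g).const_smul a }
    let P : (X →L[𝕜] 𝕜) →L[𝕜] 𝕜 := P₀.mkContinuous ‖y‖ (by
      intro g
      rw [mul_comm]
      exact hlb y g)
    obtain ⟨z, hz⟩ := hX P
    exact ⟨z, fun g => hz g⟩
  choose z hz using hP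
  have hdual : ∀ u v : X, (∀ g : X →L[𝕜] 𝕜, g u = g v) → u = v := by
    intro u v huv
    exact SeparatingDual.eq_iff_forall_dual_eq.mpr huv
  let T₀ : X →ₗ[𝕜] X :=
    { toFun := z
      map_add' := by
        intro y y'
        refine hdual _ _ (fun g => ?_)
        rw [map_add, ← hz, ← hz, ← hz]
        refine tendsto_nhds_unique (hl (y + y') g) ?_
        simpa using (hl y g).add (hl y' g)
      map_smul' := by
        intro a y
        refine hdual _ _ (fun g => ?_)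
        rw [map_smul, ← hz, ← hz]
        refine tendsto_nhds_unique (hl (a • y) g) ?_
        simpa using (hl y g).const_smul a }
  have hT₀ : ∀ y, ‖T₀ y‖ ≤ 1 * ‖y‖ := by
    intro y
    refine NormedSpace.norm_le_dual_bound 𝕜 _ (by positivity) ?_
    intro g
    have : g (T₀ y) = l y g := (hz y g).symm
    rw [this]
    calc ‖l y g‖ ≤ ‖g‖ * ‖y‖ := hlb y g
      _ = 1 * ‖y‖ * ‖g‖ := by ring
  refine ⟨T₀.mkContinuous 1 hT₀, T₀.mkContinuous_norm_le zero_le_one hT₀, ?_⟩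
  intro a ha
  have h1 : ∀ j, f a j (T₀.mkContinuous 1 hT₀ (x a)) = l (x a) (f a j) :=
    fun j => (hz (x a) (f a j)).symm
  simp only [h1]
  have h2 : Tendsto (fun F => ∑ j ∈ S a, ‖f a j (T F (x a))‖) U
      (𝓝 (∑ j ∈ S a, ‖l (x a) (f a j)‖)) :=
    tendsto_finsetSum _ (fun j _ => (hl (x a) (f a j)).norm)
  refine ge_of_tendsto h2 (hU ?_)
  filter_upwards [eventually_ge_atTop ({a} : Finset ι)] with F hF
  exact hTa F a (hF (Finset.mem_singleton_self a)) ha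

end Pool.Agent.ANT
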