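import Mathlib

set_option autoImplicit false

namespace Pool.Agent.ANT

open Filter Topology

/-- `G` is a Grothendieck space: every weak* convergent sequence in the dual converges weakly. -/
def IsGrothendieck (𝕜 : Type*) [RCLike 𝕜] (G : Type*) [NormedAddCommGroup G]
    [NormedSpace 𝕜 G] : Prop :=
  ∀ (f : ℕ → G →L[𝕜] 𝕜) (g : G →L[𝕜] 𝕜),
    (∀ x, Tendsto (fun n => f n x) atTop (𝓝 (g x))) →
      ∀ P : (G →L[𝕜] 𝕜) →L[𝕜] 𝕜, Tendsto (fun n => P (f n)) atTop (𝓝 (P g))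

/-- `X` is reflexive: every element of the bidual is the evaluation at a point of `X`. -/
def IsReflexive (𝕜 : Type*) [RCLike 𝕜] (X : Type*) [NormedAddCommGroup X]
    [NormedSpace 𝕜 X] : Prop :=
  ∀ P : (X →L[𝕜] 𝕜) →L[𝕜] 𝕜, ∃ x : X, ∀ f : X →L[𝕜] 𝕜, P f = f x

/-- The spans `F_n` of the vectors `e n i`, `i < m n`, form an unconditional finite-dimensional
Schauder decomposition of `X` with blocks uniformly isomorphic to `l_1 ^ (m n)` (the `e n i`
correspond to the unit vectors), and `c n i` are the coordinates: every `x` is the sum of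
the unconditionally convergent series of the `∑ i < m n, c n i x • e n i`, expansions are unique,
and the norm of `∑ i < m n, a i • e n i` lies between `A` and `B` times `∑ i < m n, ‖a i‖`. -/
def IsL1Decomposition {𝕜 : Type*} [RCLike 𝕜] {X : Type*} [NormedAddCommGroup X]
    [NormedSpace 𝕜 X] (m : ℕ → ℕ) (e : ℕ → ℕ → X) (c : ℕ → ℕ → X → 𝕜) : Prop :=
  (∀ x, HasSum (fun n => ∑ i ∈ Finset.range (m n), c n i x • e n i) x) ∧
  (∀ a : ℕ → ℕ → 𝕜,
    Tendsto (fun N => ∑ n ∈ Finset.range N, ∑ i ∈ Finset.range (m n), a n i • e n i)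
      atTop (𝓝 0) → ∀ n, ∀ i < m n, a n i = 0) ∧
  ∃ A B : ℝ, 0 < A ∧ ∀ (n : ℕ) (a : ℕ → 𝕜),
    A * ∑ i ∈ Finset.range (m n), ‖a i‖ ≤ ‖∑ i ∈ Finset.range (m n), a i • e n i‖ ∧
    ‖∑ i ∈ Finset.range (m n), a i • e n i‖ ≤ B * ∑ i ∈ Finset.range (m n), ‖a i‖

end Pool.Agent.ANT
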