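import Mathlib

set_option autoImplicit false

namespace Pool.Agent.ANT

open Set

/-- The blocks of `H` are of unbounded size. -/
def Lg (H : ℕ → Finset ℕ) : Prop := ∀ k, ∃ n ≥ k, k ≤ (H n).card

/-- Blockwise inclusion. -/
def Le (H' H : ℕ → Finset ℕ) : Prop := ∀ n, H' n ⊆ H n

/-- Blockwise inclusion far out. -/
def AL (H' H : ℕ → Finset ℕ) : Prop := ∃ N, ∀ n ≥ N, H' n ⊆ H n

theorem Le.al {H' H : ℕ → Finset ℕ} (h : Le H' H) : AL H' H := ⟨0, fun n _ => h n⟩

theorem Le.trans {H'' H' H : ℕ → Finset ℕ} (h : Le H'' H') (h' : Le H' H) : Le H'' H :=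
  fun n => (h n).trans (h' n)

section fusion

theorem fusion {S : Type*} (Hf : S → ℕ → Finset ℕ)
    (Q : ℕ → S → ℕ → Finset ℕ → S → Prop)
    (step : ∀ k s N, ∃ n ≥ N, ∃ V ⊆ Hf s n, k ≤ V.card ∧ ∃ s', Le (Hf s') (Hf s) ∧ Q k s n V s')
    (s0 : S) :
    ∃ (s : ℕ → S) (n : ℕ → ℕ) (V : ℕ → Finset ℕ) (H : ℕ → Finset ℕ), s 0 = s0 ∧
      StrictMono n ∧ (∀ k, k ≤ (V k).card) ∧ (∀ k, Q k (s k) (n k) (V k) (s (k + 1))) ∧
      (∀ k, H (n k) = V k) ∧ (∀ a, (H a).Nonempty → ∃ k, n k = a) ∧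
      (∀ k, ∀ a > n k, H a ⊆ Hf (s (k + 1)) a) ∧ Le H (Hf s0) := by
  classical
  choose nf hn Vf hV hVc sf hsf hQ using step
  let st : ℕ → S × ℕ := fun k => Nat.rec (s0, 0)
    (fun k p => (sf k p.1 p.2, nf k p.1 p.2 + 1)) k
  have hst : ∀ k, st (k + 1) = (sf k (st k).1 (st k).2, nf k (st k).1 (st k).2 + 1) :=
    fun k => rfl
  let s : ℕ → S := fun k => (st k).1
  let n : ℕ → ℕ := fun k => nf k (st k).1 (st k).2
  let V : ℕ → Finset ℕ := fun k => Vf k (st k).1 (st k).2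
  have hmono : StrictMono n := by
    refine strictMono_nat_of_lt_succ ?_
    intro k
    have h1 : (st (k + 1)).2 ≤ n (k + 1) := hn (k + 1) (st (k + 1)).1 (st (k + 1)).2
    have h2 : (st (k + 1)).2 = n k + 1 := by rw [hst]
    omega
  have hle : ∀ k, Le (Hf (s (k + 1))) (Hf (s k)) := fun k => hsf k (st k).1 (st k).2
  have hle' : ∀ k l, k ≤ l → Le (Hf (s l)) (Hf (s k)) := by
    intro k l hkl
    induction l, hkl using Nat.le_induction with
    | base => exact fun _ => subset_rfl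
    | succ l _ ih => exact (hle l).trans ih
  let H : ℕ → Finset ℕ := fun a => if h : ∃ k, n k = a then V h.choose else ∅
  have hH : ∀ k, H (n k) = V k := by
    intro k
    have hex : ∃ l, n l = n k := ⟨k, rfl⟩
    have h1 : H (n k) = V hex.choose := by
      simp only [H]
      rw [dif_pos hex]
    rw [h1, hmono.injective hex.choose_spec]
  have hHne : ∀ a, (H a).Nonempty → ∃ k, n k = a := by
    intro a ha
    by_contra hcon
    have : H a = ∅ := by simp only [H]; rw [dif_neg hcon]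
    rw [this] at ha
    simp at ha
  have hVs : ∀ k, V k ⊆ Hf (s k) (n k) := fun k => hV k (st k).1 (st k).2
  refine ⟨s, n, V, H, rfl, hmono, fun k => hVc k (st k).1 (st k).2,
    fun k => hQ k (st k).1 (st k).2, hH, hHne, ?_, ?_⟩
  · intro k a ha x hx
    obtain ⟨l, rfl⟩ := hHne a ⟨x, hx⟩
    rw [hH] at hx
    have hkl : k < l := hmono.lt_iff_lt.mp ha
    exact hle' (k + 1) l hkl (n l) (hVs l hx)
  · intro a x hx
    obtain ⟨l, rfl⟩ := hHne a ⟨x, hx⟩
    rw [hH] at hx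
    exact hle' 0 l (Nat.zero_le l) (n l) (hVs l hx)

end fusion

end Pool.Agent.ANT
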