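import Pool.Agent.ANT.NG

set_option autoImplicit false

namespace Pool.Agent.ANT

open Filter Topology

/-- If bounded operators connect one bounded sequence `x` with infinitely many eventually
different coordinate sequences `s i`, then the space of operators is not a Grothendieck space. -/
theorem lemBx {𝕜 : Type*} [RCLike 𝕜] {X : Type*} [NormedAddCommGroup X] [NormedSpace 𝕜 X]
    (C : ℕ → ℕ → X →L[𝕜] 𝕜) (m : ℕ → ℕ) (M : ℝ)
    (hC : ∀ n y, ∑ i ∈ Finset.range (m n), ‖C n i y‖ ≤ M * ‖y‖)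
    (K : Set ℕ) (hK : K.Infinite) (x : ℕ → X) (hx : ∀ n ∈ K, ‖x n‖ ≤ M)
    (s : ℕ → ℕ → ℕ) (hs : ∀ i, ∀ n ∈ K, s i n < m n)
    (hev : ∀ i j, i < j → {n ∈ K | s i n = s j n}.Finite) (ε : ℝ) (hε : 0 < ε)
    (hop : ∀ i, ∃ S : X →L[𝕜] X, ‖S‖ ≤ 1 ∧ {n ∈ K | ‖C n (s i n) (S (x n))‖ < ε}.Finite) :
    ¬ IsGrothendieck 𝕜 (X →L[𝕜] X) := by
  let u : ℕ → ℕ := fun a => hK.natEmbedding _ a
  have hu : Function.Injective u := fun x y hxy =>
    (hK.natEmbedding _).injective (Subtype.ext hxy)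
  have huK : ∀ a, u a ∈ K := fun a => (hK.natEmbedding _ a).2
  have hM0 : 0 ≤ M := (norm_nonneg _).trans (hx (u 0) (huK 0))
  have hfin : ∀ A : Set ℕ, A.Finite → ∀ᶠ a in (hyperfilter ℕ : Filter ℕ), u a ∉ A := by
    intro A hA
    have : ∀ᶠ a in (cofinite : Filter ℕ), u a ∉ A := by
      rw [eventually_cofinite]
      simp only [not_not]
      exact hA.preimage hu.injOn
    exact hyperfilter_le_cofinite this
  have hE : ∀ (S : X →L[𝕜] X) a, ‖S (x (u a))‖ ≤ M * ‖S‖ := by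
    intro S a
    refine (S.le_opNorm _).trans ?_
    rw [mul_comm]
    exact mul_le_mul_of_nonneg_right (hx _ (huK a)) (norm_nonneg _)
  have hL : ∀ i, ∃ φ : (X →L[𝕜] X) →L[𝕜] 𝕜, ∀ S, Tendsto
      (fun a => C (u a) (s i (u a)) (S (x (u a)))) (hyperfilter ℕ : Filter ℕ)
        (𝓝 (φ S)) := by
    intro i
    obtain ⟨φ, _, hφ⟩ := exists_ulim (V := X →L[𝕜] X) (hyperfilter ℕ)
      (fun a => (C (u a) (s i (u a))).comp
        (ContinuousLinearMap.apply 𝕜 X (x (u a)))) (M * M) (by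
        intro S a
        simp only [ContinuousLinearMap.comp_apply, ContinuousLinearMap.apply_apply]
        have h1 : ‖C (u a) (s i (u a)) (S (x (u a)))‖ ≤
            M * ‖S (x (u a))‖ := by
          refine le_trans ?_ (hC (u a) (S (x (u a))))
          exact Finset.single_le_sum
            (f := fun j => ‖C (u a) j (S (x (u a)))‖)
            (fun j _ => norm_nonneg _) (Finset.mem_range.mpr (hs i _ (huK a)))
        have h2 := mul_le_mul_of_nonneg_left (hE S a) hM0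
        linarith)
    exact ⟨φ, hφ⟩
  choose L hL using hL
  choose S hS1 hS2 using hop
  refine ng L (max (M * M) 1) ?_ S (fun i => (hS1 i).trans (le_max_right _ _)) ε hε ?_
  · intro T F
    have hev' : ∀ᶠ a in (hyperfilter ℕ : Filter ℕ), ∀ i ∈ F, ∀ j ∈ F, i < j →
        s i (u a) ≠ s j (u a) := by
      rw [Filter.eventually_all_finset]
      intro i _
      rw [Filter.eventually_all_finset]
      intro j _
      by_cases hij : i < j
      · filter_upwards [hfin _ (hev i j hij)] with a ha _ hs'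
        exact ha ⟨huK a, hs'⟩
      · exact Eventually.of_forall fun a h => absurd h hij
    have h1 : Tendsto (fun a => ∑ i ∈ F, ‖C (u a) (s i (u a)) (T (x (u a)))‖)
        (hyperfilter ℕ : Filter ℕ) (𝓝 (∑ i ∈ F, ‖L i T‖)) :=
      tendsto_finsetSum F fun i _ => (hL i T).norm
    have h2 : ∑ i ∈ F, ‖L i T‖ ≤ M * M * ‖T‖ := by
      refine le_of_tendsto h1 ?_
      filter_upwards [hev'] with a ha
      have hinj : Set.InjOn (fun i => s i (u a)) (F : Set ℕ) := by
        intro i hi j hj hij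
        rcases lt_trichotomy i j with h | h | h
        · exact absurd hij (ha i hi j hj h)
        · exact h
        · exact absurd hij.symm (ha j hj i hi h)
      have h3 : ∑ i ∈ F, ‖C (u a) (s i (u a)) (T (x (u a)))‖ =
          ∑ j ∈ F.image (fun i => s i (u a)), ‖C (u a) j (T (x (u a)))‖ := by
        rw [Finset.sum_image hinj]
      rw [h3]
      have h4 : F.image (fun i => s i (u a)) ⊆ Finset.range (m (u a)) := by
        intro j hj
        obtain ⟨i, _, rfl⟩ := Finset.mem_image.mp hj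
        exact Finset.mem_range.mpr (hs i _ (huK a))
      have h5 := Finset.sum_le_sum_of_subset_of_nonneg
        (f := fun j => ‖C (u a) j (T (x (u a)))‖) h4 (fun j _ _ => norm_nonneg _)
      have h6 := hC (u a) (T (x (u a)))
      have h7 := mul_le_mul_of_nonneg_left (hE T a) hM0
      linarith
    exact h2.trans (mul_le_mul_of_nonneg_right (le_max_left _ _) (norm_nonneg _))
  · intro i
    refine ge_of_tendsto (hL i (S i)).norm ?_
    filter_upwards [hfin _ (hS2 i)] with a ha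
    by_contra hlt
    exact ha ⟨huK a, not_le.mp hlt⟩

/-- The case of sources in the blocks. -/
theorem lemB {𝕜 : Type*} [RCLike 𝕜] {X : Type*} [NormedAddCommGroup X] [NormedSpace 𝕜 X]
    (C : ℕ → ℕ → X →L[𝕜] 𝕜) (e : ℕ → ℕ → X) (m : ℕ → ℕ) (M : ℝ)
    (hC : ∀ n x, ∑ i ∈ Finset.range (m n), ‖C n i x‖ ≤ M * ‖x‖)
    (he : ∀ n, ∀ i < m n, ‖e n i‖ ≤ M) (K : Set ℕ) (hK : K.Infinite)
    (t : ℕ → ℕ) (ht : ∀ n ∈ K, t n < m n)
    (s : ℕ → ℕ → ℕ) (hs : ∀ i, ∀ n ∈ K, s i n < m n)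
    (hev : ∀ i j, i < j → {n ∈ K | s i n = s j n}.Finite) (ε : ℝ) (hε : 0 < ε)
    (hop : ∀ i, ∃ S : X →L[𝕜] X, ‖S‖ ≤ 1 ∧ {n ∈ K | ‖C n (s i n) (S (e n (t n)))‖ < ε}.Finite) :
    ¬ IsGrothendieck 𝕜 (X →L[𝕜] X) :=
  lemBx C m M hC K hK (fun n => e n (t n)) (fun n hn => he n _ (ht n hn)) s hs hev ε hε hop

end Pool.Agent.ANT
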