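import Pool.Agent.ANT.NG

set_option autoImplicit false

namespace Pool.Agent.ANT

open Filter Topology

/-- If bounded operators move mass at least `ε` from one bounded sequence `x` into infinitely many
disjoint sequences of sets of coordinates, then the space of operators is not a Grothendieck
space. -/
theorem lemF {𝕜 : Type*} [RCLike 𝕜] {X : Type*} [NormedAddCommGroup X] [NormedSpace 𝕜 X]
    (C : ℕ → ℕ → X →L[𝕜] 𝕜) (m : ℕ → ℕ) (M : ℝ)
    (hC : ∀ n y, ∑ i ∈ Finset.range (m n), ‖C n i y‖ ≤ M * ‖y‖)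
    (K : Set ℕ) (hK : K.Infinite) (x : ℕ → X) (hx : ∀ n ∈ K, ‖x n‖ ≤ M)
    (S : ℕ → ℕ → Finset ℕ) (hS : ∀ a, ∀ n ∈ K, S a n ⊆ Finset.range (m n))
    (hdis : ∀ n ∈ K, ∀ a b, a ≠ b → Disjoint (S a n) (S b n)) (ε : ℝ) (hε : 0 < ε)
    (hop : ∀ a, ∃ T : X →L[𝕜] X, ‖T‖ ≤ 1 ∧ {n ∈ K | ∑ j ∈ S a n, ‖C n j (T (x n))‖ < ε}.Finite) :
    ¬ IsGrothendieck 𝕜 (X →L[𝕜] X) := by
  classical
  let u : ℕ → ℕ := fun a => hK.natEmbedding _ a
  have hu : Function.Injective u := fun x y hxy =>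
    (hK.natEmbedding _).injective (Subtype.ext hxy)
  have huK : ∀ a, u a ∈ K := fun a => (hK.natEmbedding _ a).2
  have hM0 : 0 ≤ M := (norm_nonneg _).trans (hx (u 0) (huK 0))
  have hfin : ∀ A : Set ℕ, A.Finite → ∀ᶠ a in (hyperfilter ℕ : Filter ℕ), u a ∉ A := by
    intro A hA
    have : ∀ᶠ a in (cofinite : Filter ℕ), u a ∉ A := by
      rw [eventually_cofinite]
      simp only [not_not]
      exact hA.preimage hu.injOn
    exact hyperfilter_le_cofinite this
  have hE : ∀ (T : X →L[𝕜] X) a, ‖T (x (u a))‖ ≤ M * ‖T‖ := by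
    intro T a
    refine (T.le_opNorm _).trans ?_
    rw [mul_comm]
    exact mul_le_mul_of_nonneg_right (hx _ (huK a)) (norm_nonneg _)
  choose T hT1 hT2 using hop
  -- the signs
  let θ : ℕ → ℕ → ℕ → 𝕜 := fun a n j => ((‖C n j (T a (x n))‖ : ℝ) : 𝕜) / C n j (T a (x n))
  have hθ1 : ∀ a n j, ‖θ a n j‖ ≤ 1 := by
    intro a n j
    simp only [θ, norm_div, RCLike.norm_ofReal, abs_norm]
    exact div_self_le_one _
  have hθ2 : ∀ a n j, θ a n j * C n j (T a (x n)) = ((‖C n j (T a (x n))‖ : ℝ) : 𝕜) := by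
    intro a n j
    simp only [θ]
    by_cases h0 : C n j (T a (x n)) = 0
    · simp [h0]
    · rw [div_mul_cancel₀ _ h0]
  have hbound : ∀ (R : X →L[𝕜] X) a (F : Finset ℕ), F ⊆ Finset.range (m (u a)) →
      ∑ j ∈ F, ‖C (u a) j (R (x (u a)))‖ ≤ M * M * ‖R‖ := by
    intro R a F hF
    have h5 := Finset.sum_le_sum_of_subset_of_nonneg
      (f := fun j => ‖C (u a) j (R (x (u a)))‖) hF (fun j _ _ => norm_nonneg _)
    have h6 := hC (u a) (R (x (u a)))
    have h7 := mul_le_mul_of_nonneg_left (hE R a) hM0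
    linarith
  have hval : ∀ (b : ℕ) (R : X →L[𝕜] X) a,
      ‖∑ j ∈ S b (u a), θ b (u a) j * C (u a) j (R (x (u a)))‖ ≤
        ∑ j ∈ S b (u a), ‖C (u a) j (R (x (u a)))‖ := by
    intro b R a
    refine (norm_sum_le _ _).trans (Finset.sum_le_sum (fun j _ => ?_))
    rw [norm_mul]
    exact mul_le_of_le_one_left (norm_nonneg _) (hθ1 _ _ _)
  have hL : ∀ b, ∃ φ : (X →L[𝕜] X) →L[𝕜] 𝕜, ∀ R, Tendsto
      (fun a => ∑ j ∈ S b (u a), θ b (u a) j * C (u a) j (R (x (u a))))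
        (hyperfilter ℕ : Filter ℕ) (𝓝 (φ R)) := by
    intro b
    obtain ⟨φ, _, hφ⟩ := exists_ulim (V := X →L[𝕜] X) (hyperfilter ℕ)
      (fun a => ∑ j ∈ S b (u a), θ b (u a) j • (C (u a) j).comp
        (ContinuousLinearMap.apply 𝕜 X (x (u a)))) (M * M) (by
        intro R a
        have h1 : (∑ j ∈ S b (u a), θ b (u a) j • (C (u a) j).comp
            (ContinuousLinearMap.apply 𝕜 X (x (u a)))) R =
            ∑ j ∈ S b (u a), θ b (u a) j * C (u a) j (R (x (u a))) := by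
          rw [ContinuousLinearMap.sum_apply]
          rfl
        rw [h1]
        exact (hval b R a).trans (hbound R a _ (hS b _ (huK a))))
    refine ⟨φ, fun R => ?_⟩
    refine (hφ R).congr (fun a => ?_)
    rw [ContinuousLinearMap.sum_apply]
    rfl
  choose L hL using hL
  refine ng L (max (M * M) 1) ?_ T (fun i => (hT1 i).trans (le_max_right _ _)) ε hε ?_
  · intro R F
    have h1 : Tendsto (fun a => ∑ b ∈ F,
        ‖∑ j ∈ S b (u a), θ b (u a) j * C (u a) j (R (x (u a)))‖)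
        (hyperfilter ℕ : Filter ℕ) (𝓝 (∑ b ∈ F, ‖L b R‖)) :=
      tendsto_finsetSum F fun b _ => (hL b R).norm
    have h2 : ∑ b ∈ F, ‖L b R‖ ≤ M * M * ‖R‖ := by
      refine le_of_tendsto h1 (Eventually.of_forall fun a => ?_)
      have h3 : ∑ b ∈ F, ‖∑ j ∈ S b (u a), θ b (u a) j * C (u a) j (R (x (u a)))‖ ≤
          ∑ b ∈ F, ∑ j ∈ S b (u a), ‖C (u a) j (R (x (u a)))‖ :=
        Finset.sum_le_sum (fun b _ => hval b R a)
      have h4 : ∑ b ∈ F, ∑ j ∈ S b (u a), ‖C (u a) j (R (x (u a)))‖ =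
          ∑ j ∈ F.biUnion (fun b => S b (u a)), ‖C (u a) j (R (x (u a)))‖ := by
        rw [Finset.sum_biUnion]
        intro b _ b' _ hbb'
        exact hdis _ (huK a) b b' hbb'
      rw [h4] at h3
      refine h3.trans (hbound R a _ ?_)
      intro j hj
      obtain ⟨b, _, hjb⟩ := Finset.mem_biUnion.mp hj
      exact hS b _ (huK a) hjb
    exact h2.trans (mul_le_mul_of_nonneg_right (le_max_left _ _) (norm_nonneg _))
  · intro b
    refine ge_of_tendsto (hL b (T b)).norm ?_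
    filter_upwards [hfin _ (hT2 b)] with a ha
    have h1 : ε ≤ ∑ j ∈ S b (u a), ‖C (u a) j (T b (x (u a)))‖ := by
      by_contra hlt
      exact ha ⟨huK a, not_le.mp hlt⟩
    have h2 : ∑ j ∈ S b (u a), θ b (u a) j * C (u a) j (T b (x (u a))) =
        ((∑ j ∈ S b (u a), ‖C (u a) j (T b (x (u a)))‖ : ℝ) : 𝕜) := by
      push_cast
      exact Finset.sum_congr rfl (fun j _ => hθ2 b (u a) j)
    rw [h2, RCLike.norm_ofReal]
    exact h1.trans (le_abs_self _)

end Pool.Agent.ANT
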