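import Pool.Agent.ANT.PolF
import Pool.Agent.ANT.CptF
import Pool.Agent.ANT.LemF
import Pool.Agent.ANT.Coord

set_option autoImplicit false

namespace Pool.Agent.ANT

open Filter Topology

variable {𝕜 : Type*} [RCLike 𝕜] {X : Type*} [NormedAddCommGroup X] [NormedSpace 𝕜 X]

/-- One operator of norm at most one moves, for every fat transition `(n, i, S)` of `Z`, mass at
least `1 / (k + 1)` from `e n i` to the coordinates in `S`. -/
def Gd (e : ℕ → ℕ → X) (C : ℕ → ℕ → X →L[𝕜] 𝕜) (k : ℕ) (Z : Set Ft) : Prop :=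
  ∃ T : X →L[𝕜] X, ‖T‖ ≤ 1 ∧ ∀ p ∈ Z,
    1 / ((k : ℝ) + 1) ≤ ∑ j ∈ p.2.2, ‖C p.1 j (T (e p.1 p.2.1))‖

theorem gd_mono (e : ℕ → ℕ → X) (C : ℕ → ℕ → X →L[𝕜] 𝕜) (k : ℕ) (Z Z' : Set Ft)
    (h : Z' ⊆ Z) (hZ : Gd e C k Z) : Gd e C k Z' := by
  obtain ⟨S, hS, hp⟩ := hZ
  exact ⟨S, hS, fun p hpZ => hp p (h hpZ)⟩

theorem gd_up (e : ℕ → ℕ → X) (C : ℕ → ℕ → X →L[𝕜] 𝕜) (k : ℕ) (Z : Set Ft) (n i : ℕ)
    (S S' : Finset ℕ) (h : S ⊆ S') (hZ : Gd e C k (insert (n, i, S) Z)) :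
    Gd e C k (insert (n, i, S') Z) := by
  obtain ⟨T, hT, hp⟩ := hZ
  refine ⟨T, hT, ?_⟩
  intro p hpZ
  rcases Set.mem_insert_iff.mp hpZ with rfl | hpZ
  · exact (hp (n, i, S) (Set.mem_insert _ _)).trans
      (Finset.sum_le_sum_of_subset_of_nonneg h (fun _ _ _ => norm_nonneg _))
  · exact hp p (Set.mem_insert_of_mem _ hpZ)

/-- On large parts of the blocks every operator is asymptotically diagonal, if `B(X)` is a
Grothendieck space. -/
theorem main [CompleteSpace X] (hX : IsReflexive 𝕜 X) (hG : IsGrothendieck 𝕜 (X →L[𝕜] X))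
    {m : ℕ → ℕ} {e : ℕ → ℕ → X} {c : ℕ → ℕ → X → 𝕜} (h : IsL1Decomposition m e c)
    {H : ℕ → Finset ℕ} (hH : Lg H) (hHm : ∀ n, ∀ i ∈ H n, i < m n) :
    ∃ H' : ℕ → Finset ℕ, (∀ n, H' n ⊆ H n) ∧ (∀ k, ∃ n ≥ k, k ≤ (H' n).card) ∧
      ∀ (T : X →L[𝕜] X), ∀ δ > 0,
        {n | ∃ i ∈ H' n, δ < ∑ j ∈ (H' n).erase i, ‖c n j (T (e n i))‖}.Finite := by
  classical
  obtain ⟨M, hMe, C, hCc, hMC⟩ := coord h
  let S : Type := {H : ℕ → Finset ℕ // Lg H ∧ ∀ n, ∀ i ∈ H n, i < m n}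
  have hone : ∀ (k : ℕ) (s : S), ∃ s' : S, Le s'.1 s.1 ∧
      ∀ Z ⊆ FT s'.1, Wd Z → ¬ Gd e C k Z := by
    intro k s
    rcases fatRamsey (gd_mono e C k) (gd_up e C k) s.2.1 with
      ⟨H', hle, hlg, hno⟩ | ⟨n, g, R, hn, hg, hR, hRd, hgood⟩
    · exact ⟨⟨H', hlg, fun n i hi => s.2.2 n i (hle n hi)⟩, hle, hno⟩
    · exfalso
      -- transport to functions of the block
      let lv : ℕ → ℕ := fun a => if h : ∃ l, n l = a then h.choose else 0
      have hlv : ∀ l, lv (n l) = l := by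
        intro l
        have hex : ∃ l', n l' = n l := ⟨l, rfl⟩
        have h1 : lv (n l) = hex.choose := by
          simp only [lv]
          rw [dif_pos hex]
        rw [h1]
        exact hn.injective hex.choose_spec
      refine lemF C m M hMC (Set.range n) (Set.infinite_range_of_injective hn.injective)
        (fun a => e a (g (lv a))) ?_ (fun a b => if a < lv b then R a (lv b) else ∅) ?_ ?_
        (1 / ((k : ℝ) + 1)) (by positivity) ?_ hG
      · rintro _ ⟨l, rfl⟩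
        simp only [hlv]
        exact hMe _ _ (s.2.2 _ _ (hg l))
      · rintro a _ ⟨l, rfl⟩
        simp only [hlv]
        split_ifs with hal
        · intro j hj
          exact Finset.mem_range.mpr (s.2.2 _ _ (hR l a hal hj))
        · exact Finset.empty_subset _
      · rintro _ ⟨l, rfl⟩ a b hab
        simp only [hlv]
        split_ifs with hal hbl
        · exact hRd l a hal b hbl hab
        · exact Finset.disjoint_empty_right _
        · exact Finset.disjoint_empty_left _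
        · exact Finset.disjoint_empty_left _
      · intro a
        obtain ⟨T, hT, hTa⟩ := cptF hX {l | a < l} (fun l => e (n l) (g l)) (fun l => R a l)
          (fun l j => C (n l) j) (1 / ((k : ℝ) + 1)) (by
            intro F hF
            obtain ⟨T, hT, hp⟩ := hgood a F (fun l hl => hF hl)
            refine ⟨T, hT, ?_⟩
            intro l hl
            exact hp (n l, g l, R a l) ⟨l, Finset.mem_coe.mpr hl, rfl⟩)
        refine ⟨T, hT, ((Set.finite_le_nat a).image n).subset ?_⟩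
        rintro _ ⟨⟨l, rfl⟩, hlt⟩
        refine ⟨l, ?_, rfl⟩
        by_contra hal
        have hal' : a < l := not_le.mp hal
        simp only [hlv, hal', if_true] at hlt
        have := hTa l hal'
        linarith
  obtain ⟨s, n, V, H1, hs0, hn, hVc, hQ, hHV, hHne, hHs, hH1⟩ := fusion (S := S)
    (fun s => s.1)
    (fun k _ _ _ s' => ∀ Z ⊆ FT s'.1, Wd Z → ¬ Gd e C k Z)
    (by
      intro k s N
      obtain ⟨a, ha, hac⟩ := s.2.1 (max N k)
      obtain ⟨s1, hle1, h1⟩ := hone k s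
      exact ⟨a, (le_max_left _ _).trans ha, s.1 a, subset_rfl, (le_max_right _ _).trans hac,
        s1, hle1, h1⟩)
    ⟨H, hH, hHm⟩
  -- the diagonal part admits no wide set for any `k`
  have hno : ∀ (k : ℕ), ∀ Z ⊆ FT H1, Wd Z → ¬ Gd e C k Z := by
    intro k Z hZ hw hg
    refine hQ k (Z ∩ {p | n k < p.1}) ?_ ?_ (gd_mono e C k _ _ Set.inter_subset_left hg)
    · intro p hp
      exact ⟨hHs k p.1 hp.2 (hZ hp.1).1,
        (hZ hp.1).2.trans (Finset.erase_subset_erase _ (hHs k p.1 hp.2))⟩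
    · intro l
      obtain ⟨p, hp, hl⟩ := hw (max l (n k + 1))
      exact ⟨p, ⟨hp, lt_of_lt_of_le (Nat.lt_succ_self _) ((le_max_right _ _).trans hl)⟩,
        (le_max_left _ _).trans hl⟩
  refine ⟨H1, hH1, ?_, ?_⟩
  · intro k
    refine ⟨n k, hn.id_le k, ?_⟩
    rw [hHV k]
    exact hVc k
  · intro T δ hδ
    by_contra hinf
    have hinf' : {n | ∃ i ∈ H1 n, δ < ∑ j ∈ (H1 n).erase i, ‖c n j (T (e n i))‖}.Infinite := hinf
    have hm1 : ∀ n, ∀ i ∈ H1 n, i < m n := fun n i hi => hHm n i (hH1 n hi)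
    have hsum : ∀ a i, ∑ j ∈ (H1 a).erase i, ‖c a j (T (e a i))‖ =
        ∑ j ∈ (H1 a).erase i, ‖C a j (T (e a i))‖ := by
      intro a i
      refine Finset.sum_congr rfl (fun j hj => ?_)
      rw [hCc a j (hm1 a j (Finset.mem_of_mem_erase hj))]
    have hT : 0 < ‖T‖ := by
      obtain ⟨a, i, hi, hd⟩ := hinf'.nonempty
      by_contra hT0
      have hT0' : T = 0 := by
        rw [← norm_le_zero_iff]; exact not_lt.mp hT0
      rw [hsum, hT0'] at hd
      simp only [ContinuousLinearMap.zero_apply, map_zero, norm_zero,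
        Finset.sum_const_zero] at hd
      linarith
    obtain ⟨k, hk⟩ := exists_nat_one_div_lt (show 0 < δ / ‖T‖ by positivity)
    -- the normalised operator
    have hS : ‖((‖T‖⁻¹ : ℝ) : 𝕜) • T‖ ≤ 1 := by
      rw [norm_smul, RCLike.norm_ofReal, abs_of_pos (inv_pos.mpr hT), inv_mul_cancel₀ hT.ne']
    let Z : Set Ft := {p | p.2.1 ∈ H1 p.1 ∧ p.2.2 = (H1 p.1).erase p.2.1 ∧
      δ < ∑ j ∈ p.2.2, ‖C p.1 j (T (e p.1 p.2.1))‖}
    refine hno k Z (fun p hp => ⟨hp.1, hp.2.1.le⟩) ?_ ⟨_, hS, ?_⟩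
    · intro l
      obtain ⟨a, ⟨i, hi, hd⟩, ha⟩ := hinf'.exists_gt l
      rw [hsum] at hd
      exact ⟨(a, i, (H1 a).erase i), ⟨hi, rfl, hd⟩, ha.le⟩
    · intro p hp
      have h1 : ∀ j, ‖C p.1 j ((((‖T‖⁻¹ : ℝ) : 𝕜) • T) (e p.1 p.2.1))‖ =
          ‖T‖⁻¹ * ‖C p.1 j (T (e p.1 p.2.1))‖ := by
        intro j
        rw [ContinuousLinearMap.smul_apply, map_smul, norm_smul, RCLike.norm_ofReal,
          abs_of_pos (inv_pos.mpr hT)]
      simp only [h1]
      rw [← Finset.mul_sum]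
      have h2 : δ / ‖T‖ ≤ ‖T‖⁻¹ * ∑ j ∈ p.2.2, ‖C p.1 j (T (e p.1 p.2.1))‖ := by
        rw [div_eq_inv_mul]
        exact mul_le_mul_of_nonneg_left hp.2.2.le (inv_pos.mpr hT).le
      linarith

end Pool.Agent.ANT
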