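import Pool.Agent.ANT.Defs

set_option autoImplicit false

namespace Pool.Agent.ANT

open Filter Topology

/-- Rosenthal's disjointness lemma, by Kupka's argument. -/
theorem kupka (a : ℕ → ℕ → ℝ) (δ : ℝ) (hδ : 0 < δ) :
    ∀ (k : ℕ) (N : Set ℕ), N.Infinite →
      (∀ i ∈ N, ∀ F : Finset ℕ, (∀ j ∈ F, j ∈ N) → ∑ j ∈ F, a j i ≤ k * δ) →
      ∃ I ⊆ N, I.Infinite ∧
        ∀ i ∈ I, ∀ F : Finset ℕ, (∀ j ∈ F, j ∈ I ∧ j ≠ i) → ∑ j ∈ F, a j i ≤ δ := by
  intro k
  induction k with
  | zero =>
    intro N hN h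
    refine ⟨N, subset_rfl, hN, fun i hi F hF => ?_⟩
    have := h i hi F (fun j hj => (hF j hj).1)
    simp only [CharP.cast_eq_zero, zero_mul] at this
    linarith
  | succ k ih =>
    intro N hN h
    let e : ℕ → ℕ := fun t => hN.natEmbedding _ t
    have he : Function.Injective e := fun x y hxy =>
      (hN.natEmbedding _).injective (Subtype.ext hxy)
    have heN : ∀ t, e t ∈ N := fun t => (hN.natEmbedding _ t).2
    let B : ℕ → Set ℕ := fun p => Set.range fun q => e (Nat.pair p q)
    have hBN : ∀ p, B p ⊆ N := by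
      rintro p _ ⟨q, rfl⟩
      exact heN _
    have hBinf : ∀ p, (B p).Infinite := by
      intro p
      apply Set.infinite_range_of_injective
      intro q q' hq
      have := he hq
      exact (Nat.pair_eq_pair.mp this).2
    have hBdisj : ∀ p p' j, j ∈ B p → j ∈ B p' → p = p' := by
      rintro p p' j ⟨q, rfl⟩ ⟨q', hq'⟩
      exact (Nat.pair_eq_pair.mp (he hq')).1.symm
    by_cases hp : ∃ p, ∀ i ∈ B p, ∀ F : Finset ℕ, (∀ j ∈ F, j ∈ B p ∧ j ≠ i) →
        ∑ j ∈ F, a j i ≤ δ
    · obtain ⟨p, hp⟩ := hp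
      exact ⟨B p, hBN p, hBinf p, hp⟩
    · push Not at hp
      choose i hi F hF hlt using hp
      have hinj : Function.Injective i := by
        intro p p' hpp
        exact hBdisj p p' (i p) (hi p) (hpp ▸ hi p')
      have hN' : (Set.range i).Infinite := Set.infinite_range_of_injective hinj
      obtain ⟨I, hIN, hI, hI2⟩ := ih (Set.range i) hN' (by
        rintro _ ⟨p, rfl⟩ G hG
        have hdis : Disjoint G (F p) := by
          rw [Finset.disjoint_left]
          intro j hjG hjF
          obtain ⟨p', rfl⟩ := hG j hjG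
          have h1 := hF p (i p') hjF
          have h2 := hBdisj p' p (i p') (hi p') h1.1
          exact h1.2 (by rw [h2])
        have h3 := h (i p) (hBN p (hi p)) (G ∪ F p) (by
          intro j hj
          rcases Finset.mem_union.mp hj with hj | hj
          · obtain ⟨p', rfl⟩ := hG j hj
            exact hBN p' (hi p')
          · exact hBN p (hF p j hj).1)
        rw [Finset.sum_union hdis] at h3
        have h4 := hlt p
        push_cast at h3
        nlinarith)
      refine ⟨I, ?_, hI, hI2⟩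
      intro j hj
      obtain ⟨p, rfl⟩ := hIN hj
      exact hBN p (hi p)

variable {𝕜 : Type*} [RCLike 𝕜]

/-- limits of bounded sequences along an ultrafilter -/
theorem exists_lim (U : Ultrafilter ℕ) (b : ℕ → 𝕜) (C : ℝ) (hb : ∀ n, ‖b n‖ ≤ C) :
    ∃ z, Tendsto b U (𝓝 z) := by
  have hK : IsCompact (Metric.closedBall (0 : 𝕜) C) := isCompact_closedBall 0 C
  have hmem : (U.map b : Filter 𝕜) ≤ 𝓟 (Metric.closedBall (0 : 𝕜) C) := by
    rw [le_principal_iff]
    change b ⁻¹' Metric.closedBall (0 : 𝕜) C ∈ U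
    have : b ⁻¹' Metric.closedBall (0 : 𝕜) C = Set.univ := by
      ext n
      simp [hb n]
    rw [this]
    exact univ_mem
  obtain ⟨z, _, hz⟩ := hK.ultrafilter_le_nhds (U.map b) hmem
  exact ⟨z, hz⟩

/-- the limit of a bounded sequence of functionals along an ultrafilter -/
theorem exists_ulim {V : Type*} [NormedAddCommGroup V] [NormedSpace 𝕜 V] (U : Ultrafilter ℕ)
    (g : ℕ → (V →L[𝕜] 𝕜)) (C : ℝ) (hg : ∀ v, ∀ n, ‖g n v‖ ≤ C * ‖v‖) :
    ∃ φ : V →L[𝕜] 𝕜, (∀ v, ‖φ v‖ ≤ C * ‖v‖) ∧ ∀ v, Tendsto (fun n => g n v) U (𝓝 (φ v)) := by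
  choose L hL using fun v => exists_lim U (fun n => g n v) (C * ‖v‖) (hg v)
  let φ₀ : V →ₗ[𝕜] 𝕜 :=
    { toFun := L
      map_add' := by
        intro v w
        have h := (hL v).add (hL w)
        have h2 := hL (v + w)
        simp only [map_add] at h2
        exact tendsto_nhds_unique h2 h
      map_smul' := by
        intro c v
        have h := (hL v).const_mul c
        have h2 := hL (c • v)
        simp only [map_smul, smul_eq_mul] at h2
        exact tendsto_nhds_unique h2 h }
  have hb : ∀ v, ‖φ₀ v‖ ≤ C * ‖v‖ := by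
    intro v
    have h := (hL v).norm
    exact le_of_tendsto h (Eventually.of_forall (hg v))
  exact ⟨φ₀.mkContinuous C hb, hb, fun v => hL v⟩

/-- A Banach space with functionals `L i` whose absolute values are summable, uniformly on the
unit ball, and bounded vectors `T i` with `ε ≤ ‖L i (T i)‖` is not a Grothendieck space. -/
theorem ng {G : Type*} [NormedAddCommGroup G] [NormedSpace 𝕜 G]
    (L : ℕ → G →L[𝕜] 𝕜) (M : ℝ) (hM : ∀ T, ∀ I : Finset ℕ, ∑ i ∈ I, ‖L i T‖ ≤ M * ‖T‖)
    (T : ℕ → G) (hT : ∀ i, ‖T i‖ ≤ M) (ε : ℝ) (hε : 0 < ε) (he : ∀ i, ε ≤ ‖L i (T i)‖) :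
    ¬ IsGrothendieck 𝕜 G := by
  intro hG
  have hM0 : 0 ≤ M := (norm_nonneg _).trans (hT 0)
  -- Rosenthal
  obtain ⟨k, hk⟩ := exists_nat_ge (M * M / (ε / 2))
  have hk' : M * M ≤ k * (ε / 2) := by
    rw [div_le_iff₀ (by positivity)] at hk
    exact hk
  obtain ⟨I, -, hI, hI2⟩ := kupka (fun j i => ‖L j (T i)‖) (ε / 2) (by positivity) k Set.univ
    Set.infinite_univ (by
      intro i _ F _
      exact (hM (T i) F).trans ((mul_le_mul_of_nonneg_left (hT i) hM0).trans hk'))
  let u : ℕ → ℕ := fun t => hI.natEmbedding _ t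
  have hu : Function.Injective u := fun x y hxy =>
    (hI.natEmbedding _).injective (Subtype.ext hxy)
  have huI : ∀ t, u t ∈ I := fun t => (hI.natEmbedding _ t).2
  have hoff : ∀ s, ∀ F : Finset ℕ, s ∉ F → ∑ j ∈ F, ‖L (u j) (T (u s))‖ ≤ ε / 2 := by
    intro s F hs
    have := hI2 (u s) (huI s) (F.map ⟨u, hu⟩) (by
      intro j hj
      obtain ⟨t, ht, rfl⟩ := Finset.mem_map.mp hj
      refine ⟨huI t, fun h => hs ?_⟩
      have : t = s := hu h
      rwa [← this])
    rwa [Finset.sum_map] at this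
  have hsumF : ∀ v, ∀ F : Finset ℕ, ∑ j ∈ F, ‖L (u j) v‖ ≤ M * ‖v‖ := by
    intro v F
    have := hM v (F.map ⟨u, hu⟩)
    rwa [Finset.sum_map] at this
  -- the signs
  have hg : ∀ j, ∃ g : 𝕜, ‖g‖ ≤ 1 ∧ g * L (u j) (T (u j)) = (‖L (u j) (T (u j))‖ : 𝕜) := by
    intro j
    set z := L (u j) (T (u j)) with hz
    have hz0 : 0 < ‖z‖ := lt_of_lt_of_le hε (he (u j))
    refine ⟨(starRingEnd 𝕜) z / (‖z‖ : 𝕜), ?_, ?_⟩
    · rw [norm_div, RCLike.norm_conj, RCLike.norm_ofReal, abs_of_pos hz0, div_self hz0.ne']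
    · rw [div_mul_eq_mul_div, RCLike.conj_mul, pow_two, mul_div_assoc, div_self, mul_one]
      exact_mod_cast hz0.ne'
  choose g hg1 hg2 using hg
  have hgL : ∀ v, ∀ F : Finset ℕ, ∑ j ∈ F, ‖g j * L (u j) v‖ ≤ M * ‖v‖ := by
    intro v F
    refine le_trans (Finset.sum_le_sum fun j _ => ?_) (hsumF v F)
    rw [norm_mul]
    exact mul_le_of_le_one_left (norm_nonneg _) (hg1 j)
  have hnsum : ∀ v, Summable fun r => ‖g r * L (u r) v‖ := fun v =>
    summable_of_sum_le (fun r => norm_nonneg _) (hgL v)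
  have hsum : ∀ v, Summable fun r => g r * L (u r) v := fun v => Summable.of_norm (hnsum v)
  have hsumk : ∀ k v, Summable fun r => g (r + k) * L (u (r + k)) v := fun k v =>
    (summable_nat_add_iff (f := fun r => g r * L (u r) v) k).mpr (hsum v)
  have htail : ∀ k v, ‖∑' r, g (r + k) * L (u (r + k)) v‖ ≤ M * ‖v‖ := by
    intro k v
    refine le_of_tendsto (hsumk k v).hasSum.norm (Eventually.of_forall fun F => ?_)
    refine (norm_sum_le _ _).trans ?_
    have := hgL v (F.map (addRightEmbedding k))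
    rwa [Finset.sum_map] at this
  let ψ : ℕ → (G →L[𝕜] 𝕜) := fun k =>
    LinearMap.mkContinuous
      { toFun := fun v => ∑' r, g (r + k) * L (u (r + k)) v
        map_add' := by
          intro v w
          rw [← (hsumk k v).tsum_add (hsumk k w)]
          simp [mul_add]
        map_smul' := by
          intro c v
          simp only [map_smul, smul_eq_mul, RingHom.id_apply]
          rw [← tsum_mul_left]
          exact tsum_congr fun r => by ring } M (htail k)
  have hψ : ∀ k v, ψ k v = ∑' r, g (r + k) * L (u (r + k)) v := fun k v => rfl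
  have hw : ∀ v, Tendsto (fun k => ψ k v) atTop (𝓝 ((0 : G →L[𝕜] 𝕜) v)) := by
    intro v
    simp only [hψ, zero_apply]
    exact tendsto_sum_nat_add fun r => g r * L (u r) v
  obtain ⟨Λ, _, hΛ⟩ := exists_ulim (V := G →L[𝕜] 𝕜) (hyperfilter ℕ)
    (fun s => ContinuousLinearMap.apply 𝕜 𝕜 (T (u s))) M (by
      intro f n
      rw [ContinuousLinearMap.apply_apply, mul_comm]
      exact (f.le_opNorm _).trans (mul_le_mul_of_nonneg_left (hT (u n)) (norm_nonneg f)))
  have hlow : ∀ k, ε / 2 ≤ RCLike.re (Λ (ψ k)) := by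
    intro k
    have h1 := (RCLike.continuous_re.tendsto _).comp (hΛ (ψ k))
    refine ge_of_tendsto h1 ?_
    have hk : ∀ᶠ s in (hyperfilter ℕ : Filter ℕ), k ≤ s := by
      apply Nat.hyperfilter_le_atTop
      exact eventually_ge_atTop k
    filter_upwards [hk] with s hs
    simp only [Function.comp, ContinuousLinearMap.apply_apply]
    rw [hψ, (hsumk k (T (u s))).tsum_eq_add_tsum_ite (s - k)]
    have e1 : s - k + k = s := by omega
    rw [e1, hg2, map_add, RCLike.ofReal_re]
    have h2 : ‖∑' r, ite (r = s - k) 0 (g (r + k) * L (u (r + k)) (T (u s)))‖ ≤ ε / 2 := by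
      have hs2 : Summable fun r => ite (r = s - k) 0 (g (r + k) * L (u (r + k)) (T (u s))) := by
        refine Summable.of_norm_bounded (g := fun r => ‖g (r + k) * L (u (r + k)) (T (u s))‖)
          ((summable_nat_add_iff (f := fun r => ‖g r * L (u r) (T (u s))‖) k).mpr
            (hnsum (T (u s)))) ?_
        intro r
        split_ifs
        · rw [norm_zero]; exact norm_nonneg _
        · exact le_rfl
      refine le_of_tendsto hs2.hasSum.norm (Eventually.of_forall fun F => ?_)
      have h3 : ∑ r ∈ F, ite (r = s - k) 0 (g (r + k) * L (u (r + k)) (T (u s))) =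
          ∑ j ∈ (F.erase (s - k)).map (addRightEmbedding k), g j * L (u j) (T (u s)) := by
        rw [Finset.sum_map]
        simp only [addRightEmbedding_apply]
        rw [← Finset.filter_ne', Finset.sum_filter]
        refine Finset.sum_congr rfl fun r _ => ?_
        by_cases h : r = s - k <;> simp [h]
      rw [h3]
      refine (norm_sum_le _ _).trans ?_
      refine le_trans (Finset.sum_le_sum fun j _ => ?_) (hoff s
        ((F.erase (s - k)).map (addRightEmbedding k)) ?_)
      · rw [norm_mul]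
        exact mul_le_of_le_one_left (norm_nonneg _) (hg1 j)
      · intro hmem
        obtain ⟨t, ht, hts⟩ := Finset.mem_map.mp hmem
        simp only [addRightEmbedding_apply] at hts
        have : t = s - k := by omega
        exact (Finset.ne_of_mem_erase ht) this
    have h3 := (abs_le.mp ((RCLike.abs_re_le_norm _).trans h2)).1
    have h4 := he (u s)
    linarith
  have h1 := hG ψ 0 hw Λ
  rw [map_zero] at h1
  have h2 := (RCLike.continuous_re.tendsto _).comp h1
  rw [map_zero] at h2
  have h3 := ge_of_tendsto h2 (Eventually.of_forall hlow)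
  linarith

end Pool.Agent.ANT
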