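import Pool.Agent.ANT.Fus
import Pool.Agent.ANT.Blk

set_option autoImplicit false

namespace Pool.Agent.ANT

open Set

/-- A fat transition `(n, i, S)`: in the block `n` from `i` to the set `S`. -/
abbrev Ft : Type := ℕ × ℕ × Finset ℕ

/-- The fat transitions inside the blocks of `H`. -/
def FT (H : ℕ → Finset ℕ) : Set Ft := {p | p.2.1 ∈ H p.1 ∧ p.2.2 ⊆ (H p.1).erase p.2.1}

/-- The fat transitions of one block. -/
def FB (n : ℕ) (V : Finset ℕ) : Set Ft := {p | p.1 = n ∧ p.2.1 ∈ V ∧ p.2.2 ⊆ V.erase p.2.1}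

/-- `Z` meets blocks arbitrarily far out. -/
def Wd (Z : Set Ft) : Prop := ∀ k, ∃ p ∈ Z, k ≤ p.1

theorem ft_mono {H' H : ℕ → Finset ℕ} (h : Le H' H) : FT H' ⊆ FT H :=
  fun p hp => ⟨h _ hp.1, hp.2.trans (Finset.erase_subset_erase _ (h _))⟩

theorem fb_subset (n : ℕ) (H : ℕ → Finset ℕ) : FB n (H n) ⊆ FT H := by
  rintro ⟨a, i, S⟩ ⟨h1, h2, h3⟩
  simp only at h1 h2 h3
  subst h1
  exact ⟨h2, h3⟩

theorem fb_finite (n : ℕ) (V : Finset ℕ) : (FB n V).Finite := by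
  refine Set.Finite.subset (({n} ×ˢ (V ×ˢ V.powerset) : Finset Ft)).finite_toSet ?_
  rintro ⟨a, i, S⟩ ⟨h1, h2, h3⟩
  simp only at h1 h2 h3
  simp only [Finset.coe_product, Set.mem_prod, Finset.mem_coe, Finset.mem_singleton,
    Finset.mem_powerset]
  exact ⟨h1, h2, h3.trans (Finset.erase_subset _ _)⟩

section main

variable (Good : Set Ft → Prop)

/-- No wide set of transitions of `H` can be added to `τ`. -/
def Rej (τ : Set Ft) (H : ℕ → Finset ℕ) : Prop := ∀ Z ⊆ FT H, Wd Z → ¬ Good (τ ∪ Z)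

/-- No large part of `H` rejects `τ`. -/
def Acc (τ : Set Ft) (H : ℕ → Finset ℕ) : Prop := ∀ H', Le H' H → Lg H' → ¬ Rej Good τ H'

variable {Good}

theorem Rej.mono (hG : ∀ Z Z' : Set Ft, Z' ⊆ Z → Good Z → Good Z') {τ : Set Ft}
    {H H' : ℕ → Finset ℕ} (h : AL H' H) (hr : Rej Good τ H) : Rej Good τ H' := by
  intro Z hZ hw hg
  obtain ⟨N, hN⟩ := h
  refine hr (Z ∩ {p | N ≤ p.1}) ?_ ?_ (hG _ _ (Set.union_subset_union_right τ
    Set.inter_subset_left) hg)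
  · intro p hp
    exact ⟨hN _ hp.2 (hZ hp.1).1, (hZ hp.1).2.trans (Finset.erase_subset_erase _ (hN _ hp.2))⟩
  · intro k
    obtain ⟨p, hp, hk⟩ := hw (max k N)
    exact ⟨p, ⟨hp, (le_max_right _ _).trans hk⟩, (le_max_left _ _).trans hk⟩

theorem lg_tail {H : ℕ → Finset ℕ} (h : Lg H) (N : ℕ) :
    Lg (fun n => if N ≤ n then H n else ∅) := by
  intro k
  obtain ⟨n, hn, hk⟩ := h (max k N)
  refine ⟨n, (le_max_left _ _).trans hn, ?_⟩
  simp only [(le_max_right _ _).trans hn, if_true]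
  exact (le_max_left _ _).trans hk

theorem le_tail (H : ℕ → Finset ℕ) (N : ℕ) : Le (fun n => if N ≤ n then H n else ∅) H := by
  intro n
  by_cases hn : N ≤ n
  · simp [hn]
  · simp [hn]

theorem Acc.mono (hG : ∀ Z Z' : Set Ft, Z' ⊆ Z → Good Z → Good Z') {τ : Set Ft}
    {H H' : ℕ → Finset ℕ} (h : AL H' H) (ha : Acc Good τ H) : Acc Good τ H' := by
  intro H'' hle hlg hrej
  obtain ⟨N, hN⟩ := h
  refine ha (fun n => if N ≤ n then H'' n else ∅) ?_ (lg_tail hlg N)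
    (hrej.mono hG (le_tail H'' N).al)
  intro n
  by_cases hn : N ≤ n
  · simp only [hn, if_true]
    exact (hle n).trans (hN n hn)
  · simp [hn]

theorem Acc.good (hG : ∀ Z Z' : Set Ft, Z' ⊆ Z → Good Z → Good Z') {τ : Set Ft}
    {H : ℕ → Finset ℕ} (hL : Lg H) (ha : Acc Good τ H) : Good τ := by
  have h := ha H (fun _ => subset_rfl) hL
  unfold Rej at h
  push Not at h
  obtain ⟨Z, _, _, hg⟩ := h
  exact hG _ _ Set.subset_union_left hg

theorem Acc.up (hS : ∀ (Z : Set Ft) (n i : ℕ) (S S' : Finset ℕ), S ⊆ S' →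
      Good (insert (n, i, S) Z) → Good (insert (n, i, S') Z)) {τ : Set Ft}
    {H : ℕ → Finset ℕ} {n i : ℕ} {S S' : Finset ℕ} (h : S ⊆ S')
    (ha : Acc Good (insert (n, i, S) τ) H) : Acc Good (insert (n, i, S') τ) H := by
  intro H' hle hlg hrej
  refine ha H' hle hlg ?_
  intro Z hZ hw hg
  refine hrej Z hZ hw ?_
  rw [Set.insert_union] at hg ⊢
  exact hS _ n i S S' h hg

theorem decideList (hG : ∀ Z Z' : Set Ft, Z' ⊆ Z → Good Z → Good Z') (l : List (Set Ft)) :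
    ∀ H : ℕ → Finset ℕ, Lg H → ∃ H', Le H' H ∧ Lg H' ∧ ∀ τ ∈ l, Acc Good τ H' ∨ Rej Good τ H' := by
  induction l with
  | nil => exact fun H hH => ⟨H, fun _ => subset_rfl, hH, by simp⟩
  | cons τ l ih =>
    intro H hH
    by_cases hA : Acc Good τ H
    · obtain ⟨H', hle, hlg, h⟩ := ih H hH
      refine ⟨H', hle, hlg, ?_⟩
      intro σ hσ
      rcases List.mem_cons.mp hσ with rfl | hσ
      · exact Or.inl (hA.mono hG hle.al)
      · exact h σ hσ
    · unfold Acc at hA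
      push Not at hA
      obtain ⟨H1, hle1, hlg1, hrej⟩ := hA
      obtain ⟨H', hle, hlg, h⟩ := ih H1 hlg1
      refine ⟨H', hle.trans hle1, hlg, ?_⟩
      intro σ hσ
      rcases List.mem_cons.mp hσ with rfl | hσ
      · exact Or.inr (hrej.mono hG hle.al)
      · exact h σ hσ

/-- All transitions can be decided at once. -/
theorem decideAll (hG : ∀ Z Z' : Set Ft, Z' ⊆ Z → Good Z → Good Z') (l : List (Set Ft))
    {H : ℕ → Finset ℕ} (hL : Lg H) :
    ∃ H', Le H' H ∧ Lg H' ∧ ∀ p ∈ FT H', ∀ τ ∈ l,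
      Acc Good (insert p τ) H' ∨ Rej Good (insert p τ) H' := by
  classical
  let S : Type := {H : ℕ → Finset ℕ // Lg H}
  obtain ⟨s, n, V, H1, hs0, hn, hVc, hQ, hHV, hHne, hHs, hH0⟩ := fusion (S := S)
    (fun s => s.1)
    (fun _ _ n V s' => ∀ p ∈ FB n V, ∀ τ ∈ l,
      Acc Good (insert p τ) s'.1 ∨ Rej Good (insert p τ) s'.1)
    (by
      intro k s N
      obtain ⟨n, hn, hnc⟩ := s.2 (max N k)
      obtain ⟨H', hle, hlg, hdec⟩ := decideList hG
        (((fb_finite n (s.1 n)).toFinset.toList.product l).map (fun q => insert q.1 q.2)) s.1 s.2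
      refine ⟨n, (le_max_left _ _).trans hn, s.1 n, subset_rfl, (le_max_right _ _).trans hnc,
        ⟨H', hlg⟩, hle, ?_⟩
      intro p hp τ hτ
      refine hdec _ (List.mem_map.mpr ⟨(p, τ), ?_, rfl⟩)
      rw [List.pair_mem_product]
      exact ⟨by simpa using hp, hτ⟩)
    ⟨H, hL⟩
  refine ⟨H1, hH0, ?_, ?_⟩
  · intro k
    refine ⟨n k, hn.id_le k, ?_⟩
    rw [hHV k]
    exact hVc k
  · rintro ⟨a, i, R⟩ ⟨h1, h2⟩ τ hτ
    simp only at h1 h2
    obtain ⟨k, rfl⟩ := hHne a ⟨i, h1⟩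
    rw [hHV k] at h1 h2
    have hal : AL H1 (s (k + 1)).1 := ⟨n k + 1, fun b hb => hHs k b hb⟩
    rcases hQ k (n k, i, R) ⟨rfl, h1, h2⟩ τ hτ with h | h
    · exact Or.inl (h.mono hG hal)
    · exact Or.inr (h.mono hG hal)

/-- After finitely many accepted sets, on some large part all sets of `k` members of a block
contain an accepted transition. -/
theorem keyAcc (hG : ∀ Z Z' : Set Ft, Z' ⊆ Z → Good Z → Good Z')
    (hS : ∀ (Z : Set Ft) (n i : ℕ) (S S' : Finset ℕ), S ⊆ S' →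
      Good (insert (n, i, S) Z) → Good (insert (n, i, S') Z))
    (T : Finset (Finset Ft)) {H : ℕ → Finset ℕ} (hL : Lg H)
    (ha : ∀ τ ∈ T, Acc Good (τ : Set Ft) H) :
    ∃ H', Le H' H ∧ Lg H' ∧ ∃ k : ℕ, ∀ n, ∀ V ⊆ H' n, k ≤ V.card →
      ∃ i ∈ V, ∀ τ ∈ T, Acc Good (insert (n, i, V.erase i) (τ : Set Ft)) H' := by
  classical
  obtain ⟨H1, hle1, hlg1, hdec⟩ := decideAll hG
    (T.toList.map (fun τ : Finset Ft => (τ : Set Ft))) hL
  have hdec' : ∀ p ∈ FT H1, ∀ τ ∈ T, ¬ Acc Good (insert p (τ : Set Ft)) H1 →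
      Rej Good (insert p (τ : Set Ft)) H1 := by
    intro p hp τ hτ hno
    rcases hdec p hp _ (List.mem_map.mpr ⟨τ, by simpa using hτ, rfl⟩) with h | h
    · exact absurd h hno
    · exact h
  by_contra hcon
  push Not at hcon
  -- rejected sets of members, far out and big
  have h1 : ∀ K : ℕ, ∃ τ ∈ T, ∃ n ≥ K, ∃ V ⊆ H1 n, K ≤ V.card ∧
      ∀ i ∈ V, ∀ R ⊆ V.erase i, Rej Good (insert (n, i, R) (τ : Set Ft)) H1 := by
    intro K
    obtain ⟨n, V, hV, hVc, hVi⟩ := hcon (fun n => if K ≤ n then H1 n else ∅)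
      ((le_tail H1 K).trans hle1) (lg_tail hlg1 K) (T.card * K + 1)
    have hVne : V.Nonempty := by
      rw [← Finset.card_pos]; omega
    have hKn : K ≤ n := by
      by_contra hK
      simp only [hK, if_false] at hV
      obtain ⟨x, hx⟩ := hVne
      simpa using hV hx
    simp only [hKn, if_true] at hV
    have hrej : ∀ i ∈ V, ∃ τ ∈ T, Rej Good (insert (n, i, V.erase i) (τ : Set Ft)) H1 := by
      intro i hi
      obtain ⟨τ, hτ, hno⟩ := hVi i hi
      refine ⟨τ, hτ, hdec' (n, i, V.erase i) ⟨hV hi, Finset.erase_subset_erase _ hV⟩ τ hτ ?_⟩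
      intro hA
      exact hno (hA.mono hG (le_tail H1 K).al)
    choose! f hfT hf using hrej
    -- pigeonhole
    obtain ⟨τ, hτ, hτc⟩ := Finset.exists_lt_card_fiber_of_mul_lt_card_of_maps_to
      (s := V) (t := T) (f := f) (n := K) (fun i hi => hfT i hi) (by omega)
    refine ⟨τ, hτ, n, hKn, V.filter (fun i => f i = τ), (Finset.filter_subset _ _).trans hV,
      hτc.le, ?_⟩
    intro i hi R hR
    obtain ⟨hiV, hfi⟩ := Finset.mem_filter.mp hi
    have h2 := hf i hiV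
    rw [hfi] at h2
    intro Z hZ hw hg
    refine h2 Z hZ hw ?_
    rw [Set.insert_union] at hg ⊢
    exact hS _ n i R (V.erase i) (hR.trans (Finset.erase_subset_erase _
      (Finset.filter_subset _ _))) hg
  -- one `τ` for all `K`
  obtain ⟨τ, hτ, h2⟩ : ∃ τ ∈ T, ∀ K : ℕ, ∃ n ≥ K, ∃ V ⊆ H1 n, K ≤ V.card ∧
      ∀ i ∈ V, ∀ R ⊆ V.erase i, Rej Good (insert (n, i, R) (τ : Set Ft)) H1 := by
    by_contra hno
    push Not at hno
    choose! k hk using hno
    obtain ⟨τ, hτ, n, hn, V, hV, hVc, hVi⟩ := h1 (T.sup k)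
    have hkτ : k τ ≤ T.sup k := Finset.le_sup hτ
    obtain ⟨i, hi, R, hR, hrej⟩ := hk τ hτ n (hkτ.trans hn) V hV (hkτ.trans hVc)
    exact hrej (hVi i hi R hR)
  obtain ⟨s, n, V, H2, hs0, hn, hVc, hQ, hHV, hHne, hHs, hH0⟩ := fusion (S := Unit)
    (fun _ => H1)
    (fun _ _ n V _ => ∀ i ∈ V, ∀ R ⊆ V.erase i, Rej Good (insert (n, i, R) (τ : Set Ft)) H1)
    (by
      intro k s N
      obtain ⟨n, hn, V, hV, hVc, hVi⟩ := h2 (max k N)
      exact ⟨n, (le_max_right _ _).trans hn, V, hV, (le_max_left _ _).trans hVc, (),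
        fun _ => subset_rfl, hVi⟩)
    ()
  have hlg2 : Lg H2 := by
    intro k
    refine ⟨n k, hn.id_le k, ?_⟩
    rw [hHV k]
    exact hVc k
  refine ha τ hτ H2 (Le.trans hH0 hle1) hlg2 ?_
  intro Z hZ hw hg
  obtain ⟨⟨a, i, R⟩, hpZ, -⟩ := hw 0
  have hp := hZ hpZ
  obtain ⟨h3, h4⟩ := hp
  simp only at h3 h4
  obtain ⟨k, rfl⟩ := hHne a ⟨i, h3⟩
  rw [hHV k] at h3 h4
  refine ((hQ k i h3 R h4).mono hG (Le.al hH0)) Z hZ hw ?_
  have : insert (n k, i, R) (τ : Set Ft) ∪ Z = (τ : Set Ft) ∪ Z := by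
    rw [Set.insert_union, Set.insert_eq_of_mem]
    exact Or.inr hpZ
  rw [this]
  exact hg

/-- The dichotomy for fat transitions. -/
theorem fatRamsey (hG : ∀ Z Z' : Set Ft, Z' ⊆ Z → Good Z → Good Z')
    (hS : ∀ (Z : Set Ft) (n i : ℕ) (S S' : Finset ℕ), S ⊆ S' →
      Good (insert (n, i, S) Z) → Good (insert (n, i, S') Z))
    {H : ℕ → Finset ℕ} (hH : Lg H) :
    (∃ H', Le H' H ∧ Lg H' ∧ ∀ Z ⊆ FT H', Wd Z → ¬ Good Z) ∨
    (∃ (n g : ℕ → ℕ) (S : ℕ → ℕ → Finset ℕ), StrictMono n ∧ (∀ l, g l ∈ H (n l)) ∧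
      (∀ l, ∀ a < l, S a l ⊆ H (n l)) ∧
      (∀ l, ∀ a < l, ∀ b < l, a ≠ b → Disjoint (S a l) (S b l)) ∧
      ∀ (a : ℕ) (τ : Finset ℕ), (∀ l ∈ τ, a < l) →
        Good ((fun l => (n l, g l, S a l)) '' (τ : Set ℕ))) := by
  classical
  by_cases hacc : Acc Good ∅ H
  swap
  · left
    unfold Acc at hacc
    push Not at hacc
    obtain ⟨H', hle, hlg, hrej⟩ := hacc
    refine ⟨H', hle, hlg, ?_⟩
    intro Z hZ hw hg
    refine hrej Z hZ hw ?_
    rwa [Set.empty_union]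
  right
  let St : Type := {q : Finset (Finset Ft) × (ℕ → Finset ℕ) × ℕ // Lg q.2.1 ∧
    (∀ τ ∈ q.1, Acc Good (τ : Set Ft) q.2.1) ∧
    ∀ n, ∀ V ⊆ q.2.1 n, q.2.2 ≤ V.card →
      ∃ i ∈ V, ∀ τ ∈ q.1, Acc Good (insert (n, i, V.erase i) (τ : Set Ft)) q.2.1}
  have hT0 : ∀ τ ∈ ({∅} : Finset (Finset Ft)), Acc Good (τ : Set Ft) H := by
    intro τ hτ
    rw [Finset.mem_singleton] at hτ
    subst hτ
    simpa using hacc
  obtain ⟨H0, hle0, hlg0, k0, h0⟩ := keyAcc hG hS {∅} hH hT0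
  let s0 : St := ⟨({∅}, H0, k0), hlg0, fun τ hτ => (hT0 τ hτ).mono hG hle0.al, h0⟩
  obtain ⟨s, n, V, H1, hs0, hn, hVc, hQ, hHV, hHne, hHs, hH1⟩ := fusion (S := St)
    (fun s => s.1.2.1)
    (fun l s n V s' => ∃ (i : ℕ) (R : ℕ → Finset ℕ), i ∈ V ∧ (∀ a < l, R a ⊆ V) ∧
      (∀ a < l, ∀ b < l, a ≠ b → Disjoint (R a) (R b)) ∧
      ∀ τ ∈ s.1.1, τ ∈ s'.1.1 ∧ ∀ a < l, insert (n, i, R a) τ ∈ s'.1.1)
    (by
      intro l s N
      obtain ⟨R0, hR0⟩ := blockLemma s.1.2.2 l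
      obtain ⟨n, hn, hnc⟩ := s.2.1 (max N (max R0 l))
      have hc1 : R0 ≤ (s.1.2.1 n).card := (le_max_left _ _).trans ((le_max_right _ _).trans hnc)
      have hc2 : l ≤ (s.1.2.1 n).card := (le_max_right _ _).trans ((le_max_right _ _).trans hnc)
      obtain ⟨i, hi, R, hR, hdis⟩ := hR0 (s.1.2.1 n)
        (fun i S => ∀ τ ∈ s.1.1, Acc Good (insert (n, i, S) (τ : Set Ft)) s.1.2.1)
        (fun V hV hVc => s.2.2.2 n V hV hVc) hc1
      let T' : Finset (Finset Ft) := (s.1.1 ×ˢ Finset.range l).image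
        (fun q => insert (n, i, R q.2) q.1)
      have hT' : ∀ τ ∈ s.1.1 ∪ T', Acc Good (τ : Set Ft) s.1.2.1 := by
        intro τ hτ
        rcases Finset.mem_union.mp hτ with h | h
        · exact s.2.2.1 τ h
        · obtain ⟨⟨σ, a⟩, hq, rfl⟩ := Finset.mem_image.mp h
          rw [Finset.mem_product, Finset.mem_range] at hq
          have := (hR a hq.2).2.2 σ hq.1
          simpa using this
      obtain ⟨H', hle, hlg, k', h'⟩ := keyAcc hG hS (s.1.1 ∪ T') s.2.1 hT'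
      refine ⟨n, (le_max_left _ _).trans hn, s.1.2.1 n, subset_rfl, hc2,
        ⟨(s.1.1 ∪ T', H', k'), hlg, fun τ hτ => (hT' τ hτ).mono hG hle.al, h'⟩, hle,
        i, R, hi, fun a ha => (hR a ha).1, hdis, ?_⟩
      intro τ hτ
      refine ⟨Finset.mem_union_left _ hτ, ?_⟩
      intro a ha
      refine Finset.mem_union_right _ (Finset.mem_image.mpr ⟨(τ, a), ?_, rfl⟩)
      rw [Finset.mem_product, Finset.mem_range]
      exact ⟨hτ, ha⟩)
    s0
  choose g R hgV hRV hRd hRT using hQ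
  have hVH : ∀ l, V l ⊆ H (n l) := by
    intro l
    have h1 := hH1 (n l)
    rw [hHV l] at h1
    exact h1.trans (hle0 (n l))
  refine ⟨n, g, fun a l => R l a, hn, fun l => hVH l (hgV l),
    fun l a ha => (hRV l a ha).trans (hVH l), fun l a ha b hb hab => hRd l a ha b hb hab, ?_⟩
  intro a τ hτ
  -- all finite parts appear
  have hmem : ∀ k, ∀ τ : Finset ℕ, (∀ l ∈ τ, a < l) → (∀ l ∈ τ, l < k) →
      τ.image (fun l => (n l, g l, R l a)) ∈ (s k).1.1 := by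
    intro k
    induction k with
    | zero =>
      intro τ _ hlt
      have : τ = ∅ := by
        rw [Finset.eq_empty_iff_forall_notMem]
        intro l hl
        exact absurd (hlt l hl) (Nat.not_lt_zero l)
      rw [this, hs0]
      simp [s0]
    | succ k ih =>
      intro τ hτa hlt
      by_cases hk : k ∈ τ
      · have h1 := ih (τ.erase k) (fun l hl => hτa l (Finset.mem_of_mem_erase hl)) (by
          intro l hl
          have h2 := hlt l (Finset.mem_of_mem_erase hl)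
          have h3 := Finset.ne_of_mem_erase hl
          omega)
        have h2 := (hRT k _ h1).2 a (hτa k hk)
        have h3 : insert (n k, g k, R k a) ((τ.erase k).image (fun l => (n l, g l, R l a))) =
            τ.image (fun l => (n l, g l, R l a)) := by
          rw [← Finset.image_insert (fun l => (n l, g l, R l a)), Finset.insert_erase hk]
        rw [h3] at h2
        exact h2
      · refine (hRT k _ (ih τ hτa ?_)).1
        intro l hl
        have h2 := hlt l hl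
        have h3 : l ≠ k := fun h => hk (h ▸ hl)
        omega
  have h1 := hmem (τ.sup id + 1) τ hτ (fun l hl => Nat.lt_succ_of_le (Finset.le_sup (f := id) hl))
  have h2 := ((s (τ.sup id + 1)).2.2.1 _ h1).good hG (s (τ.sup id + 1)).2.1
  rwa [Finset.coe_image] at h2

end main

end Pool.Agent.ANT
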