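import Mathlib

set_option autoImplicit false

namespace Pool.Agent.ANT

/-- finite Ramsey theorem for pairs, two colours -/
lemma ramsey_ab : ∀ a b : ℕ, ∃ R : ℕ, ∀ (c : ℕ → ℕ → Prop) (V : Finset ℕ), R ≤ V.card →
    (∃ W ⊆ V, a ≤ W.card ∧ ∀ i ∈ W, ∀ j ∈ W, i < j → c i j) ∨
    (∃ W ⊆ V, b ≤ W.card ∧ ∀ i ∈ W, ∀ j ∈ W, i < j → ¬ c i j) := by
  classical
  intro a
  induction a with
  | zero =>
    intro b
    exact ⟨0, fun c V _ => Or.inl ⟨∅, Finset.empty_subset _, by simp, by simp⟩⟩
  | succ a iha =>
    intro b
    induction b with
    | zero => exact ⟨0, fun c V _ => Or.inr ⟨∅, Finset.empty_subset _, by simp, by simp⟩⟩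
    | succ b ihb =>
      obtain ⟨R1, hR1⟩ := iha (b + 1)
      obtain ⟨R2, hR2⟩ := ihb
      refine ⟨R1 + R2 + 1, fun c V hV => ?_⟩
      have hne : V.Nonempty := by
        rw [← Finset.card_pos]; omega
      set v := V.min' hne with hv
      have hvV : v ∈ V := Finset.min'_mem _ _
      have hvlt : ∀ j ∈ V.erase v, v < j := by
        intro j hj
        have h1 := Finset.min'_le V j (Finset.mem_of_mem_erase hj)
        exact lt_of_le_of_ne h1 (Finset.ne_of_mem_erase hj).symm
      have hcard : (V.erase v).card = V.card - 1 := Finset.card_erase_of_mem hvV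
      have hsplit := Finset.card_filter_add_card_filter_not (s := V.erase v) (fun j => c v j)
      have hsub : ∀ {W : Finset ℕ} {p : ℕ → Prop} [DecidablePred p],
          W ⊆ (V.erase v).filter p → W ⊆ V := fun h => h.trans
            ((Finset.filter_subset _ _).trans (Finset.erase_subset _ _))
      rcases le_or_gt R1 ((V.erase v).filter (fun j => c v j)).card with h | h
      · rcases hR1 c _ h with ⟨W, hW1, hW2, hW3⟩ | ⟨W, hW1, hW2, hW3⟩
        · left
          have hvW : v ∉ W := by
            intro hmem
            have := hW1 hmem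
            rw [Finset.mem_filter, Finset.mem_erase] at this
            exact this.1.1 rfl
          refine ⟨insert v W, ?_, ?_, ?_⟩
          · intro x hx
            rcases Finset.mem_insert.mp hx with h | h
            · rw [h]; exact hvV
            · exact hsub hW1 h
          · rw [Finset.card_insert_of_notMem hvW]; omega
          · intro i hi j hj hij
            rcases Finset.mem_insert.mp hi with h1 | h1
            · rcases Finset.mem_insert.mp hj with h2 | h2
              · omega
              · rw [h1]
                exact (Finset.mem_filter.mp (hW1 h2)).2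
            · rcases Finset.mem_insert.mp hj with h2 | h2
              · have := hvlt i (Finset.mem_of_mem_filter i (hW1 h1))
                omega
              · exact hW3 i h1 j h2 hij
        · exact Or.inr ⟨W, hsub hW1, hW2, hW3⟩
      · have h' : R2 ≤ ((V.erase v).filter (fun j => ¬ c v j)).card := by omega
        rcases hR2 c _ h' with ⟨W, hW1, hW2, hW3⟩ | ⟨W, hW1, hW2, hW3⟩
        · exact Or.inl ⟨W, hsub hW1, hW2, hW3⟩
        · right
          have hvW : v ∉ W := by
            intro hmem
            have := hW1 hmem
            rw [Finset.mem_filter, Finset.mem_erase] at this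
            exact this.1.1 rfl
          refine ⟨insert v W, ?_, ?_, ?_⟩
          · intro x hx
            rcases Finset.mem_insert.mp hx with h | h
            · rw [h]; exact hvV
            · exact hsub hW1 h
          · rw [Finset.card_insert_of_notMem hvW]; omega
          · intro i hi j hj hij
            rcases Finset.mem_insert.mp hi with h1 | h1
            · rcases Finset.mem_insert.mp hj with h2 | h2
              · omega
              · rw [h1]
                exact (Finset.mem_filter.mp (hW1 h2)).2
            · rcases Finset.mem_insert.mp hj with h2 | h2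
              · have := hvlt i (Finset.mem_of_mem_filter i (hW1 h1))
                omega
              · exact hW3 i h1 j h2 hij

/-- Finite Ramsey theorem, one number for both colours. -/
theorem ramseyFin (k : ℕ) : ∃ R : ℕ, ∀ (V : Finset ℕ) (c : ℕ → ℕ → Prop), R ≤ V.card →
    ∃ W, W ⊆ V ∧ k ≤ W.card ∧ ((∀ i ∈ W, ∀ j ∈ W, i < j → c i j) ∨
      (∀ i ∈ W, ∀ j ∈ W, i < j → ¬ c i j)) := by
  obtain ⟨R, hR⟩ := ramsey_ab k k
  refine ⟨R, fun V c hV => ?_⟩
  rcases hR c V hV with ⟨W, h1, h2, h3⟩ | ⟨W, h1, h2, h3⟩
  · exact ⟨W, h1, h2, Or.inl h3⟩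
  · exact ⟨W, h1, h2, Or.inr h3⟩

end Pool.Agent.ANT
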